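import Pool.Agent.Helper87.OUT2.Up
import Pool.Agent.Helper25.T5b.Lab

/-!
# T5b, line 5: `Blk CaseUp CstC`
-/

set_option autoImplicit false

namespace Pool.Agent.Helper87.OUT2

open Pool.Agent.Helper84.T5b

theorem lHyp : LHyp where
  sub hm hl _ _ hs w n z z' := Pool.Agent.Helper25.T5b.labH_sub hm hl hs w n z z'
  card hm hl _ _ hs w n z z' := Pool.Agent.Helper25.T5b.card_labJ hm hl hs w n z z'
  cst hm hl _ _ hs _ _ _ _ _ hS h := Pool.Agent.Helper25.T5b.card_labJ_const hm hl hs hS h

/-- **T5b, line 5**: the hits with given main vectors above the joint front -/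
theorem blk_up : Blk CaseUp CstC := blk_up_of lHyp

end Pool.Agent.Helper87.OUT2
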