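import Pool.Agent.Helper87.OUT2.Prob
import Pool.Agent.Helper25.T5b.Num

/-!
# T5b, line 5: the four patterns in numbers
-/

set_option autoImplicit false

namespace Pool.Agent.Helper87.OUT2

open Finset Pool.Agent.Helper84.T5b Pool.Agent.Helper57.T5
open Pool.Agent.Helper37.T5b Pool.Agent.Helper39.T5
open Pool.Agent.Helper5.ET (bb mask)
open Pool.Agent.Helper30.T5b (QF QT RT PZ ez NL)
open Pool.Agent.Helper22.HW
open Pool.Agent.Helper30.T5b (pz)
open Pool.Agent.Helper27.T4 (NN MM fx NN_fx_mul MM_pos NN_pos)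
open Pool.Agent.Helper42.T5.Pr
open Pool.Agent.Helper22.SL (rk3)

variable {m k : ℕ}

/-! ## families -/

theorem fam_zero : fam rk3 0 = (univ : Finset (Fin 3)) := by
  ext i
  simp [fam]

theorem fam_three : fam rk3 3 = (∅ : Finset (Fin 3)) := by
  ext i
  simp only [fam, mem_filter, mem_univ, true_and, rk3, notMem_empty, iff_false]
  omega

/-- product of the moduli of the families `1`, `2` -/
noncomputable def Q1 (m k s : ℕ) : ℕ := MM (pz k s) (zf m k s) (fam rk3 1)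

theorem Q1_pos (m k s : ℕ) : 0 < Q1 m k s := MM_pos (pz_prime k s) _ _

theorem fam_one : fam rk3 1 = ({1, 2} : Finset (Fin 3)) := by decide

theorem Q1_eq (m k s : ℕ) : Q1 m k s = QF m k s 1 * QF m k s 2 := by
  unfold Q1 MM
  rw [fam_one, prod_pair (by decide)]
  rfl

theorem QT_eq (m k s : ℕ) : QT m k s = QF m k s 0 * Q1 m k s := by
  rw [Q1_eq]
  unfold QT
  rw [Fin.prod_univ_three, mul_assoc]

theorem NN_eq_QT (m k s : ℕ) : NN (pz k s) (zf m k s) = QT m k s := rfl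

theorem MM_zero (m k s : ℕ) : MM (pz k s) (zf m k s) (fam rk3 0) = QT m k s := by
  rw [fam_zero]
  rfl

theorem MM_three (m k s : ℕ) : MM (pz k s) (zf m k s) (fam rk3 3) = 1 := by
  rw [fam_three]
  rfl

theorem NNfx_zero (m k s : ℕ) : NN (pz k s) (fx (zf m k s) (fam rk3 0)) = 1 := by
  have h := NN_fx_mul (p := pz k s) (zf m k s) (fam rk3 0)
  rw [MM_zero, NN_eq_QT] at h
  have h2 : 0 < QT m k s := Pool.Agent.Helper30.T5b.QT_pos m k s
  exact Nat.eq_of_mul_eq_mul_right h2 (by rw [h, one_mul])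

theorem NNfx_three (m k s : ℕ) : NN (pz k s) (fx (zf m k s) (fam rk3 3)) = QT m k s := by
  have h := NN_fx_mul (p := pz k s) (zf m k s) (fam rk3 3)
  rw [MM_three, mul_one, NN_eq_QT] at h
  exact h

theorem NNfx_one (m k s : ℕ) : NN (pz k s) (fx (zf m k s) (fam rk3 1)) = QF m k s 0 := by
  have h := NN_fx_mul (p := pz k s) (zf m k s) (fam rk3 1)
  rw [NN_eq_QT, QT_eq] at h
  exact Nat.eq_of_mul_eq_mul_right (Q1_pos m k s) h

/-! ## the number of values of the left code -/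

/-- one side is not random -/
theorem G_three {A B Q L : ℕ} (hL : 0 < L) (h : A * Q ≤ L ∨ B * Q ≤ L) :
    min (A * Q) (B * Q) / L + 1 ≤ 2 := by
  have h1 : min (A * Q) (B * Q) ≤ L := by
    rcases h with h | h
    · exact (min_le_left _ _).trans h
    · exact (min_le_right _ _).trans h
  have h2 : min (A * Q) (B * Q) / L ≤ 1 := by
    calc min (A * Q) (B * Q) / L ≤ L / L := Nat.div_le_div_right h1
      _ = 1 := Nat.div_self hL
  omega

theorem G_one {A B Q0 Q1 L : ℕ} (hA : 0 < A) (hQ0 : 0 < Q0) (h : A * Q0 ≤ L) :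
    min (A * (Q0 * Q1)) (B * (Q0 * Q1)) / L + 1 ≤ B * Q1 / A + 1 := by
  have h0 : 0 < A * Q0 := Nat.mul_pos hA hQ0
  have h1 : min (A * (Q0 * Q1)) (B * (Q0 * Q1)) / L ≤ B * (Q0 * Q1) / (A * Q0) :=
    (Nat.div_le_div_left h h0).trans (Nat.div_le_div_right (min_le_right _ _))
  have h2 : B * (Q0 * Q1) / (A * Q0) = B * Q1 / A := by
    rw [show B * (Q0 * Q1) = (B * Q1) * Q0 by ring, Nat.mul_div_mul_right _ _ hQ0]
  omega

/-! ## sizes of the sets of vectors -/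

theorem card_T1_sq (p a : ℕ) : (T1 p a).card ^ 2 ≤ p ^ a := by
  have h1 : (T1 p a).card ≤ Nat.sqrt (p ^ a) := by
    have h2 : T1 p a ⊆ Icc 1 (Nat.sqrt (p ^ a)) := by
      intro y hy
      rw [mem_T1] at hy
      rw [mem_Icc]
      refine ⟨hy.1.one_lt.le, ?_⟩
      rw [Nat.le_sqrt, ← pow_two]
      exact hy.2.2.le
    have h3 := card_le_card h2
    rw [Nat.card_Icc] at h3
    omega
  calc (T1 p a).card ^ 2 ≤ Nat.sqrt (p ^ a) ^ 2 := Nat.pow_le_pow_left h1 2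
    _ ≤ p ^ a := by rw [pow_two]; exact Nat.sqrt_le _

theorem card_Y0_sq (m k s : ℕ) : (Y0 m k s).card ^ 2 ≤ QT m k s := by
  unfold Y0 TT
  rw [Fintype.card_piFinset, ← Finset.prod_pow]
  exact Finset.prod_le_prod' (fun i _ => card_T1_sq _ _)

theorem card_Yv_sq (m k s v : ℕ) : ((Y0 m k s).filter (fun y => y 0 = v)).card ^ 2 ≤ Q1 m k s := by
  have h1 : (Y0 m k s).filter (fun y => y 0 = v) ⊆
      Fintype.piFinset (fun f : Fin 3 => if f = 0 then {v} else T1 (pz k s f) (zf m k s f)) := by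
    intro y hy
    rw [mem_filter] at hy
    unfold Y0 TT at hy
    rw [Fintype.mem_piFinset] at hy ⊢
    intro f
    split_ifs with hf
    · rw [hf, mem_singleton]
      exact hy.2
    · exact hy.1 f
  have h2 := card_le_card h1
  rw [Fintype.card_piFinset, Fin.prod_univ_three] at h2
  have h3 : ((Y0 m k s).filter (fun y => y 0 = v)).card ≤
      (T1 (pz k s 1) (zf m k s 1)).card * (T1 (pz k s 2) (zf m k s 2)).card := by
    refine h2.trans (le_of_eq ?_)
    simp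
  calc ((Y0 m k s).filter (fun y => y 0 = v)).card ^ 2
      ≤ ((T1 (pz k s 1) (zf m k s 1)).card * (T1 (pz k s 2) (zf m k s 2)).card) ^ 2 :=
        Nat.pow_le_pow_left h3 2
    _ = (T1 (pz k s 1) (zf m k s 1)).card ^ 2 * (T1 (pz k s 2) (zf m k s 2)).card ^ 2 := by ring
    _ ≤ QF m k s 1 * QF m k s 2 := Nat.mul_le_mul (card_T1_sq _ _) (card_T1_sq _ _)
    _ = Q1 m k s := (Q1_eq m k s).symm

/-! ## the numbers -/

/-- the numbers of a pair at the outermost static level; `S` = size -/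
structure Nb (m k s l l' Lb : ℕ) (S : ℝ) : Prop where
  S1 : 1000 ≤ S
  lb : (Lb : ℝ) ≤ Real.exp (S / 1000)
  bw : (BW m k l : ℝ) ≤ Real.exp (S / 1000)
  bw' : (BW m k l' : ℝ) ≤ Real.exp (S / 1000)
  rat : (M0 m k l' : ℝ) ≤ M0 m k l * Real.exp (-(S / 10))
  q0 : Real.exp S ≤ QF m k s 0
  q1 : Real.exp S ≤ Q1 m k s
  qt : (QT m k s : ℝ) ≤ Real.exp (14 * S)
  cop : (M0 m k l).Coprime (QF m k s 0)
  pos : 0 < M0 m k l
  pos' : 0 < M0 m k l'

theorem Nb.lbb {s l l' Lb : ℕ} {S : ℝ} (h : Nb m k s l l' Lb S) :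
    (Lb : ℝ) * ((BW m k l : ℝ) * BW m k l') ≤ Real.exp (3 * S / 1000) := by
  have h1 : Real.exp (3 * S / 1000) =
      Real.exp (S / 1000) * (Real.exp (S / 1000) * Real.exp (S / 1000)) := by
    rw [← Real.exp_add, ← Real.exp_add]
    congr 1
    ring
  rw [h1]
  exact mul_le_mul h.lb (mul_le_mul h.bw h.bw' (Nat.cast_nonneg _) (Real.exp_pos _).le)
    (mul_nonneg (Nat.cast_nonneg _) (Nat.cast_nonneg _)) (Real.exp_pos _).le

theorem two_le_exp_one : (2 : ℝ) ≤ Real.exp 1 := by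
  have := Real.exp_one_gt_d9
  linarith

theorem price_c_abs {L W A B q0 q1 S : ℝ} (hL : 0 ≤ L) (hW : 0 ≤ W) (hA0 : 0 ≤ A) (hB0 : 0 ≤ B)
    (h1 : L * W ≤ Real.exp (3 * S / 1000)) (hA : A ^ 2 ≤ q0 * q1) (hB : B ^ 2 ≤ q1)
    (hq0 : Real.exp S ≤ q0) (hq1 : 0 < q1) (hS : 1000 ≤ S) :
    L * ((A * B) * W) * 2 ≤ Real.exp (-(S / 20)) * (q0 * q1) := by
  have hq0' : 0 < q0 := (Real.exp_pos _).trans_le hq0
  have h2 : A * B ≤ q0 * q1 * Real.exp (-(S / 2)) := by
    refine abs_le_of_sq_le_sq' ?_ (by positivity) |>.2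
    have h3 : Real.exp (-(S / 2)) ^ 2 = Real.exp (-S) := by
      rw [← Real.exp_nat_mul]
      congr 1
      push_cast
      ring
    have h4 : (1 : ℝ) ≤ q0 * Real.exp (-S) := by
      rw [Real.exp_neg, ← div_eq_mul_inv, one_le_div (Real.exp_pos _)]
      exact hq0
    calc (A * B) ^ 2 = A ^ 2 * B ^ 2 := by ring
      _ ≤ (q0 * q1) * q1 := mul_le_mul hA hB (by positivity) (by positivity)
      _ ≤ (q0 * q1) * q1 * (q0 * Real.exp (-S)) := le_mul_of_one_le_right (by positivity) h4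
      _ = (q0 * q1 * Real.exp (-(S / 2))) ^ 2 := by
          rw [mul_pow, h3]
          ring
  calc L * ((A * B) * W) * 2 = (L * W) * (A * B) * 2 := by ring
    _ ≤ Real.exp (3 * S / 1000) * (q0 * q1 * Real.exp (-(S / 2))) * Real.exp 1 := by
        refine mul_le_mul (mul_le_mul h1 h2 (by positivity) (Real.exp_pos _).le) two_le_exp_one
          (by norm_num) (by positivity)
    _ = q0 * q1 * Real.exp (3 * S / 1000 + -(S / 2) + 1) := by
        rw [Real.exp_add, Real.exp_add]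
        ring
    _ ≤ q0 * q1 * Real.exp (-(S / 20)) := by
        refine mul_le_mul_of_nonneg_left (Real.exp_le_exp.2 ?_) (by positivity)
        linarith
    _ = Real.exp (-(S / 20)) * (q0 * q1) := by ring

theorem price_d_abs {L W A B q0 q1 S R : ℝ} (hL : 0 ≤ L) (hW : 0 ≤ W) (hA0 : 0 ≤ A) (hB0 : 0 ≤ B)
    (h1 : L * W ≤ Real.exp (3 * S / 1000)) (hA : A ^ 2 ≤ q0 * q1) (hB : B ^ 2 ≤ q0 * q1)
    (hq0 : Real.exp S ≤ q0) (hq1 : Real.exp S ≤ q1) (hS : 1000 ≤ S)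
    (hR0 : 0 ≤ R) (hR : R ≤ q1 * Real.exp (-(S / 10))) :
    L * ((A * B) * W) * (R + 1) ≤ Real.exp (-(S / 20)) * (q0 * q1 * q1) := by
  have hq0' : 0 < q0 := (Real.exp_pos _).trans_le hq0
  have hq1' : 0 < q1 := (Real.exp_pos _).trans_le hq1
  have h2 : A * B ≤ q0 * q1 := by nlinarith [sq_nonneg (A - B)]
  have h3 : R + 1 ≤ Real.exp 1 * (q1 * Real.exp (-(S / 10))) := by
    have h6 : (1 : ℝ) ≤ q1 * Real.exp (-(S / 10)) := by
      rw [Real.exp_neg, ← div_eq_mul_inv, one_le_div (Real.exp_pos _)]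
      refine le_trans (Real.exp_le_exp.2 ?_) hq1
      linarith
    have h7 : 2 * (q1 * Real.exp (-(S / 10))) ≤ Real.exp 1 * (q1 * Real.exp (-(S / 10))) :=
      mul_le_mul_of_nonneg_right two_le_exp_one (by positivity)
    linarith
  calc L * ((A * B) * W) * (R + 1) = (L * W) * (A * B) * (R + 1) := by ring
    _ ≤ Real.exp (3 * S / 1000) * (q0 * q1) * (Real.exp 1 * (q1 * Real.exp (-(S / 10)))) := by
        refine mul_le_mul (mul_le_mul h1 h2 (by positivity) (Real.exp_pos _).le) h3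
          (by positivity) (by positivity)
    _ = q0 * q1 * q1 * Real.exp (3 * S / 1000 + 1 + -(S / 10)) := by
        rw [Real.exp_add, Real.exp_add]
        ring
    _ ≤ q0 * q1 * q1 * Real.exp (-(S / 20)) := by
        refine mul_le_mul_of_nonneg_left (Real.exp_le_exp.2 ?_) (by positivity)
        linarith
    _ = Real.exp (-(S / 20)) * (q0 * q1 * q1) := by ring

/-- the price of a pattern with a constant family `0` on the side which is not random -/
theorem Nb.price_c {s l l' Lb : ℕ} {S : ℝ} (h : Nb m k s l l' Lb S) {A B : ℕ}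
    (hA : A ^ 2 ≤ QT m k s) (hB : B ^ 2 ≤ Q1 m k s) :
    ((Lb * ((A * B) * (BW m k l * BW m k l')) * 2 : ℕ) : ℝ) ≤
      Real.exp (-(S / 20)) * (QT m k s : ℝ) := by
  have e1 : (QT m k s : ℝ) = QF m k s 0 * Q1 m k s := by exact_mod_cast QT_eq m k s
  have hA' : (A : ℝ) ^ 2 ≤ QF m k s 0 * Q1 m k s := by
    rw [← e1]
    exact_mod_cast hA
  have hB' : (B : ℝ) ^ 2 ≤ Q1 m k s := by exact_mod_cast hB
  have hq1 : (0 : ℝ) < Q1 m k s := (Real.exp_pos _).trans_le h.q1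
  have h2 := price_c_abs (Nat.cast_nonneg Lb)
    (mul_nonneg (Nat.cast_nonneg (BW m k l)) (Nat.cast_nonneg (BW m k l')))
    (Nat.cast_nonneg A) (Nat.cast_nonneg B) h.lbb hA' hB' h.q0 hq1 h.S1
  rw [e1]
  push_cast
  exact h2

/-- the price of a pattern with a distinct family `0` on the side with the constant outer key -/
theorem Nb.price_d {s l l' Lb : ℕ} {S : ℝ} (h : Nb m k s l l' Lb S) {A B : ℕ}
    (hA : A ^ 2 ≤ QT m k s) (hB : B ^ 2 ≤ QT m k s) :
    ((Lb * ((A * B) * (BW m k l * BW m k l')) * (M0 m k l' * Q1 m k s / M0 m k l + 1) : ℕ) : ℝ) ≤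
      Real.exp (-(S / 20)) * ((QT m k s : ℝ) * Q1 m k s) := by
  have e1 : (QT m k s : ℝ) = QF m k s 0 * Q1 m k s := by exact_mod_cast QT_eq m k s
  have hA' : (A : ℝ) ^ 2 ≤ QF m k s 0 * Q1 m k s := by
    rw [← e1]
    exact_mod_cast hA
  have hB' : (B : ℝ) ^ 2 ≤ QF m k s 0 * Q1 m k s := by
    rw [← e1]
    exact_mod_cast hB
  have hq1 : (0 : ℝ) < Q1 m k s := (Real.exp_pos _).trans_le h.q1
  have hp : (0 : ℝ) < M0 m k l := by exact_mod_cast h.pos
  have h4 : ((M0 m k l' * Q1 m k s / M0 m k l : ℕ) : ℝ) ≤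
      ((M0 m k l' * Q1 m k s : ℕ) : ℝ) / M0 m k l := Nat.cast_div_le
  have h5 : ((M0 m k l' * Q1 m k s : ℕ) : ℝ) / M0 m k l ≤ Q1 m k s * Real.exp (-(S / 10)) := by
    rw [div_le_iff₀ hp]
    push_cast
    calc (M0 m k l' : ℝ) * Q1 m k s ≤ (M0 m k l * Real.exp (-(S / 10))) * Q1 m k s :=
          mul_le_mul_of_nonneg_right h.rat hq1.le
      _ = _ := by ring
  have h2 := price_d_abs (Nat.cast_nonneg Lb)
    (mul_nonneg (Nat.cast_nonneg (BW m k l)) (Nat.cast_nonneg (BW m k l')))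
    (Nat.cast_nonneg A) (Nat.cast_nonneg B) h.lbb hA' hB' h.q0 h.q1 h.S1
    (Nat.cast_nonneg (M0 m k l' * Q1 m k s / M0 m k l)) (h4.trans h5)
  rw [e1]
  push_cast at h2 ⊢
  exact h2

theorem Nb.q1_le {s l l' Lb : ℕ} {S : ℝ} (h : Nb m k s l l' Lb S) :
    (Q1 m k s : ℝ) ≤ QT m k s ∧ (1 : ℝ) ≤ QT m k s := by
  have h1 : 0 < QF m k s 0 := Pool.Agent.Helper30.T5b.QF_pos m k s 0
  have h2 := Q1_pos m k s
  have h3 := QT_eq m k s
  have h4 : Q1 m k s ≤ QT m k s := by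
    rw [h3]
    exact Nat.le_mul_of_pos_left _ h1
  exact ⟨by exact_mod_cast h4, by exact_mod_cast h2.trans_le h4⟩

theorem Nb.qq {s l l' Lb : ℕ} {S : ℝ} (h : Nb m k s l l' Lb S) {x y : ℝ}
    (hx : x ≤ Real.exp (-(S / 20)) * y) (hy0 : 0 ≤ y) (hy : y ≤ (QT m k s : ℝ) * QT m k s) :
    x ≤ Real.exp (28 * S) := by
  have h1 : Real.exp (-(S / 20)) ≤ 1 := by
    rw [← Real.exp_zero]
    refine Real.exp_le_exp.2 ?_
    have := h.S1
    linarith
  have h2 : (0 : ℝ) ≤ QT m k s := Nat.cast_nonneg _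
  calc x ≤ Real.exp (-(S / 20)) * y := hx
    _ ≤ 1 * y := mul_le_mul_of_nonneg_right h1 hy0
    _ = y := one_mul y
    _ ≤ (QT m k s : ℝ) * QT m k s := hy
    _ ≤ Real.exp (14 * S) * Real.exp (14 * S) := mul_le_mul h.qt h.qt h2 (Real.exp_pos _).le
    _ = Real.exp (28 * S) := by
        rw [← Real.exp_add]
        congr 1
        ring

end Pool.Agent.Helper87.OUT2
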