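import Pool.Agent.Helper22.HW.Keys

/-!
# T5b, OUT2: the union bound for tables with outer keys

A side with outer keys `OSide`: the tables of the level are keyed by an outer key `o : ε` and the
initial part of the vector.  A candidate is a label `g` (with outer keys `o g`, `o' g` and target
`X g`), two vectors and two window values; it is a hit if the two codes and the windows have the
sum `X g`.  `out_bound`: the number of assignments of the fresh keys for which there are `m + 1` hits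
with pairwise disjoint fresh keys.
-/

set_option autoImplicit false

namespace Pool.Agent.Helper87.OUT2

open Finset Pool.Agent.Helper27.T4 Pool.Agent.Helper29.T4 Pool.Agent.Helper22.HW

/-- a side with outer keys -/
structure OSide {ι : Type*} (p : ι → ℕ) (κ ε : Type*) where
  /-- front -/
  F : ℕ
  /-- extensions -/
  e : ι → ℕ
  /-- keys -/
  key : ε → ι → (ι → ℕ) → κ

variable {ι : Type*} [Fintype ι] [DecidableEq ι] {p : ι → ℕ} {κ ε ε' γ : Type*} [DecidableEq κ]

/-- the side with the outer key `o` -/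
def OSide.sd (S : OSide p κ ε) (o : ε) : Side p κ := ⟨S.F, S.e, S.e, S.key o⟩

/-- requirements -/
structure OSide.Ok (S : OSide p κ ε) (rk : ι → ℕ) (Mk : κ → ℕ) : Prop where
  ok : ∀ o, (S.sd o).Ok rk Mk
  oinj : ∀ o o' i i' y y', S.key o i y = S.key o' i' y' → o = o'

/-- a hit of the label `t.1` -/
def Hit (hp : ∀ i, (p i).Prime) (hinj : Function.Injective p) (S : OSide p κ ε)
    (S' : OSide p κ ε') (o : γ → ε) (o' : γ → ε') (X : γ → ℕ) (w : κ → ℕ)
    (t : γ × (((ι → ℕ) × (ι → ℕ)) × (ℕ × ℕ))) : Prop :=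
  (S.sd (o t.1)).cd hp hinj w t.2.1.1 + (S'.sd (o' t.1)).cd hp hinj w t.2.1.2 +
    (t.2.2.1 + t.2.2.2) = X t.1

/-- the fresh keys of two candidates are different: no fresh family, or different outer keys, or
different initial parts -/
def Dj (rk : ι → ℕ) (r0 : ℕ) (o o2 : ε) (y y2 : ι → ℕ) : Prop :=
  fam rk r0 = ∅ ∨ o ≠ o2 ∨ PreNe rk r0 y y2

omit [DecidableEq ι] in
theorem OSide.Ok.disj {S : OSide p κ ε} {rk : ι → ℕ} {Mk : κ → ℕ} (h : S.Ok rk Mk) (r0 : ℕ)
    {o o2 : ε} {y y2 : ι → ℕ} (hd : Dj rk r0 o o2 y y2) :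
    Disjoint ((S.sd o).fk (fam rk r0) y) ((S.sd o2).fk (fam rk r0) y2) := by
  rcases hd with h0 | h0 | h0
  · rw [h0]
    simp [Side.fk]
  · rw [Finset.disjoint_left]
    intro k hk hk'
    rw [Side.fk, mem_image] at hk hk'
    obtain ⟨i, _, rfl⟩ := hk
    obtain ⟨i', _, he⟩ := hk'
    exact h0 (h.oinj _ _ _ _ _ _ he).symm
  · by_cases hoo : o = o2
    · subst hoo
      exact (h.ok o).disjoint_fk r0 y y2 h0
    · rw [Finset.disjoint_left]
      intro k hk hk'
      rw [Side.fk, mem_image] at hk hk'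
      obtain ⟨i, _, rfl⟩ := hk
      obtain ⟨i', _, he⟩ := hk'
      exact hoo (h.oinj _ _ _ _ _ _ he).symm

/-- the values of the left code which are possible for a candidate -/
noncomputable def vals (hp : ∀ i, (p i).Prime) (hinj : Function.Injective p) (S : OSide p κ ε)
    (S' : OSide p κ ε') (o : γ → ε) (o' : γ → ε') (X : γ → ℕ) (Mk : κ → ℕ) (K1 : Finset κ)
    (w0 : κ → ℕ) (t : γ × (((ι → ℕ) × (ι → ℕ)) × (ℕ × ℕ))) : Finset ℕ :=
  open Classical in
  ((Om (fun k : K1 => Mk k)).filter (fun ω => Hit hp hinj S S' o o' X (comb K1 w0 ω) t)).image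
    (fun ω => (S.sd (o t.1)).cd hp hinj (comb K1 w0 ω) t.2.1.1)

/-- **the number of values of the left code** -/
theorem card_vals (hp : ∀ i, (p i).Prime) (hinj : Function.Injective p) {S : OSide p κ ε}
    {S' : OSide p κ ε'} {rk : ι → ℕ} {Mk : κ → ℕ} (hS : S.Ok rk Mk) (hS' : S'.Ok rk Mk)
    (o : γ → ε) (o' : γ → ε') (X : γ → ℕ) (r0 r0' : ℕ) (K1 : Finset κ) (w0 : κ → ℕ)
    (t : γ × (((ι → ℕ) × (ι → ℕ)) × (ℕ × ℕ)))
    (hK : ∀ i, rk i < r0 → S.key (o t.1) i t.2.1.1 ∉ K1)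
    (hK' : ∀ i, rk i < r0' → S'.key (o' t.1) i t.2.1.2 ∉ K1) :
    (vals hp hinj S S' o o' X Mk K1 w0 t).card ≤
      min (S.F * NN p S.e) (S'.F * NN p S'.e) /
        Nat.lcm (S.F * NN p (fx S.e (fam rk r0))) (S'.F * NN p (fx S'.e (fam rk r0'))) + 1 := by
  classical
  set Z := (Om (fun k : K1 => Mk k)).filter
    (fun ω => Hit hp hinj S S' o o' X (comb K1 w0 ω) t) with hZ
  set V : (K1 → ℕ) → (∀ i, ZMod (p i ^ S.e i)) := fun ω i =>
    Lg (p i) (S.e i) (t.2.1.1 i) +
      ((comb K1 w0 ω (S.key (o t.1) i t.2.1.1) : ℕ) : ZMod (p i ^ S.e i)) with hV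
  set V' : (K1 → ℕ) → (∀ i, ZMod (p i ^ S'.e i)) := fun ω i =>
    Lg (p i) (S'.e i) (t.2.1.2 i) +
      ((comb K1 w0 ω (S'.key (o' t.1) i t.2.1.2) : ℕ) : ZMod (p i ^ S'.e i)) with hV'
  have h1 : (vals hp hinj S S' o o' X Mk K1 w0 t).card ≤
      (Z.image (fun ω => (V ω, V' ω))).card := by
    have h2 : vals hp hinj S S' o o' X Mk K1 w0 t =
        (Z.image (fun ω => (V ω, V' ω))).image (fun q => fc hp hinj S.F S.e q.1) := by
      rw [Finset.image_image]
      unfold vals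
      refine Finset.image_congr ?_
      intro ω _
      rfl
    rw [h2]
    exact card_image_le
  refine h1.trans ?_
  refine front_count hp hinj S.F S'.F (hS.ok (o t.1)).pos (hS'.ok (o' t.1)).pos
    (hS.ok (o t.1)).cop (hS'.ok (o' t.1)).cop (fam rk r0) (fam rk r0')
    (X t.1 - (t.2.2.1 + t.2.2.2))
    (fun i => Lg (p i) (S.e i) (t.2.1.1 i) +
      ((w0 (S.key (o t.1) i t.2.1.1) : ℕ) : ZMod (p i ^ S.e i)))
    (fun i => Lg (p i) (S'.e i) (t.2.1.2 i) +
      ((w0 (S'.key (o' t.1) i t.2.1.2) : ℕ) : ZMod (p i ^ S'.e i))) _ ?_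
  intro q hq
  rw [mem_image] at hq
  obtain ⟨ω, hω, rfl⟩ := hq
  rw [hZ, mem_filter] at hω
  refine ⟨?_, ?_, ?_⟩
  · intro i hi
    have hi' : rk i < r0 := by
      by_contra hh
      push Not at hh
      exact hi (by rw [fam, mem_filter]; exact ⟨mem_univ _, hh⟩)
    have hcc : comb K1 w0 ω (S.key (o t.1) i t.2.1.1) = w0 (S.key (o t.1) i t.2.1.1) := by
      rw [comb, dif_neg (hK i hi')]
    simp only [hV]
    rw [hcc]
  · intro i hi
    have hi' : rk i < r0' := by
      by_contra hh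
      push Not at hh
      exact hi (by rw [fam, mem_filter]; exact ⟨mem_univ _, hh⟩)
    have hcc : comb K1 w0 ω (S'.key (o' t.1) i t.2.1.2) = w0 (S'.key (o' t.1) i t.2.1.2) := by
      rw [comb, dif_neg (hK' i hi')]
    simp only [hV']
    rw [hcc]
  · have h3 : fc hp hinj S.F S.e (V ω) + fc hp hinj S'.F S'.e (V' ω) +
        (t.2.2.1 + t.2.2.2) = X t.1 := hω.2
    simp only
    omega

open Classical in
/-- **The union bound for tables with outer keys.**  `fam rk r0`, `fam rk r0'` are the fresh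
families of the two sides; the keys of the other families are not random. -/
theorem out_bound (hp : ∀ i, (p i).Prime) (hinj : Function.Injective p) {S : OSide p κ ε}
    {S' : OSide p κ ε'} {rk : ι → ℕ} {Mk : κ → ℕ} (hS : S.Ok rk Mk) (hS' : S'.Ok rk Mk)
    (hdisj : ∀ o i y o' i' y', S.key o i y ≠ S'.key o' i' y') (hMk : ∀ k, 0 < Mk k)
    (o : γ → ε) (o' : γ → ε') (X : γ → ℕ) (r0 r0' : ℕ) (K1 : Finset κ) (w0 : κ → ℕ)
    (Lam : Finset γ) (Y Y' : Finset (ι → ℕ)) (BB : Finset (ℕ × ℕ))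
    (hK : ∀ g ∈ Lam, ∀ y ∈ Y, ∀ i, (S.key (o g) i y ∈ K1 ↔ r0 ≤ rk i))
    (hK' : ∀ g ∈ Lam, ∀ y ∈ Y', ∀ i, (S'.key (o' g) i y ∈ K1 ↔ r0' ≤ rk i))
    (G : ℕ) (hG : min (S.F * NN p S.e) (S'.F * NN p S'.e) /
        Nat.lcm (S.F * NN p (fx S.e (fam rk r0))) (S'.F * NN p (fx S'.e (fam rk r0'))) + 1 ≤ G)
    (q : ℝ) (hq : ((Lam.card * ((Y.card * Y'.card) * BB.card) * G : ℕ) : ℝ) ≤
      q * ((MM p S.e (fam rk r0) : ℝ) * MM p S'.e (fam rk r0'))) (hq0 : 0 ≤ q) (m : ℕ) :
    (((Om (fun k : K1 => Mk k)).filter (fun ω => ∃ T ⊆ Lam ×ˢ ((Y ×ˢ Y') ×ˢ BB),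
        T.card = m + 1 ∧ (∀ t ∈ T, Hit hp hinj S S' o o' X (comb K1 w0 ω) t) ∧
        (∀ t ∈ T, ∀ t2 ∈ T, t ≠ t2 → Dj rk r0 (o t.1) (o t2.1) t.2.1.1 t2.2.1.1 ∧
          Dj rk r0' (o' t.1) (o' t2.1) t.2.1.2 t2.2.1.2))).card : ℝ) ≤
      (Om (fun k : K1 => Mk k)).card *
        (((Lam.card * ((Y.card * Y'.card) * BB.card) * G : ℕ) : ℝ) * q ^ m) := by
  set R := fam rk r0 with hR
  set R' := fam rk r0' with hR'
  -- candidates with the value of the left code
  set Cand : Finset ((γ × (((ι → ℕ) × (ι → ℕ)) × (ℕ × ℕ))) × ℕ) :=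
    (Lam ×ˢ ((Y ×ˢ Y') ×ˢ BB)).biUnion (fun t =>
      (vals hp hinj S S' o o' X Mk K1 w0 t).image (fun r => (t, r))) with hCand
  have hCc : Cand.card ≤ Lam.card * ((Y.card * Y'.card) * BB.card) * G := by
    refine card_biUnion_le.trans ?_
    refine (Finset.sum_le_card_nsmul _ _ G ?_).trans ?_
    · intro t ht
      rw [mem_product, mem_product, mem_product] at ht
      refine card_image_le.trans ((card_vals hp hinj hS hS' o o' X r0 r0' K1 w0 t ?_ ?_).trans hG)
      · intro i hi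
        rw [hK _ ht.1 _ ht.2.1.1]
        omega
      · intro i hi
        rw [hK' _ ht.1 _ ht.2.1.2]
        omega
    · rw [smul_eq_mul, card_product, card_product, card_product]
  have hCmem : ∀ c ∈ Cand, c.1 ∈ Lam ×ˢ ((Y ×ˢ Y') ×ˢ BB) := by
    intro c hc
    rw [hCand, mem_biUnion] at hc
    obtain ⟨t, ht, hc⟩ := hc
    rw [mem_image] at hc
    obtain ⟨r, _, rfl⟩ := hc
    exact ht
  -- fresh keys inside `K1`
  set fkt : (γ × (((ι → ℕ) × (ι → ℕ)) × (ℕ × ℕ))) × ℕ → Finset K1 := fun c =>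
    Finset.univ.filter (fun k : K1 => (k : κ) ∈ (S.sd (o c.1.1)).fk R c.1.2.1.1 ∪
      (S'.sd (o' c.1.1)).fk R' c.1.2.1.2) with hfkt
  -- the values
  set vl : (γ × (((ι → ℕ) × (ι → ℕ)) × (ℕ × ℕ))) × ℕ → K1 → ℕ := fun c k =>
    if h : ∃ i, i ∈ R ∧ S.key (o c.1.1) i c.1.2.1.1 = (k : κ) then
      kval (S.sd (o c.1.1)) c.1.2.1.1 c.2 h.choose
    else if h' : ∃ i, i ∈ R' ∧ S'.key (o' c.1.1) i c.1.2.1.2 = (k : κ) then
      kval (S'.sd (o' c.1.1)) c.1.2.1.2 (X c.1.1 - (c.1.2.2.1 + c.1.2.2.2) - c.2) h'.choose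
    else 0 with hvl
  have hmain := tuple_bound_set (fun k : K1 => Mk k) (fun k => hMk k) Cand
    (fun c ω => (S.sd (o c.1.1)).cd hp hinj (comb K1 w0 ω) c.1.2.1.1 = c.2 ∧
      Hit hp hinj S S' o o' X (comb K1 w0 ω) c.1) fkt vl ?_ q ?_ m
    ((Om (fun k : K1 => Mk k)).filter (fun ω => ∃ T ⊆ Lam ×ˢ ((Y ×ˢ Y') ×ˢ BB),
        T.card = m + 1 ∧ (∀ t ∈ T, Hit hp hinj S S' o o' X (comb K1 w0 ω) t) ∧
        (∀ t ∈ T, ∀ t2 ∈ T, t ≠ t2 → Dj rk r0 (o t.1) (o t2.1) t.2.1.1 t2.2.1.1 ∧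
          Dj rk r0' (o' t.1) (o' t2.1) t.2.1.2 t2.2.1.2))) ?_
  · refine hmain.trans ?_
    have h1 : (Cand.card : ℝ) ≤ ((Lam.card * ((Y.card * Y'.card) * BB.card) * G : ℕ) : ℝ) := by
      exact_mod_cast hCc
    exact mul_le_mul_of_nonneg_left (mul_le_mul_of_nonneg_right h1 (pow_nonneg hq0 m))
      (Nat.cast_nonneg _)
  · -- the values are forced
    intro c hc ω hω hhit k hk
    rw [hfkt] at hk
    simp only [mem_filter, mem_univ, true_and, mem_union] at hk
    obtain ⟨hr, hsum⟩ := hhit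
    have hωk : ω k < Mk k := by
      rw [Om, Fintype.mem_piFinset] at hω
      exact mem_range.1 (hω k)
    have hcomb : comb K1 w0 ω (k : κ) = ω k := comb_mem k.2
    by_cases h : ∃ i, i ∈ R ∧ S.key (o c.1.1) i c.1.2.1.1 = (k : κ)
    · simp only [hvl, dif_pos h]
      have hch := h.choose_spec
      have h3 := key_value hp hinj (hS.ok (o c.1.1)) (comb K1 w0 ω) c.1.2.1.1 c.2 h.choose
        (by
          show comb K1 w0 ω (S.key (o c.1.1) h.choose c.1.2.1.1) <
            Mk (S.key (o c.1.1) h.choose c.1.2.1.1)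
          rw [hch.2, hcomb]; exact hωk) hr
      have h4 : comb K1 w0 ω (S.key (o c.1.1) h.choose c.1.2.1.1) =
        kval (S.sd (o c.1.1)) c.1.2.1.1 c.2 h.choose := h3
      rw [hch.2, hcomb] at h4
      exact h4
    · rcases hk with hk | hk
      · exfalso
        rw [Side.fk, mem_image] at hk
        exact h hk
      · have h' : ∃ i, i ∈ R' ∧ S'.key (o' c.1.1) i c.1.2.1.2 = (k : κ) := by
          rw [Side.fk, mem_image] at hk
          exact hk
        simp only [hvl, dif_neg h, dif_pos h']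
        have hch := h'.choose_spec
        have hr' : (S'.sd (o' c.1.1)).cd hp hinj (comb K1 w0 ω) c.1.2.1.2
            = X c.1.1 - (c.1.2.2.1 + c.1.2.2.2) - c.2 := by
          unfold Hit at hsum
          rw [← hsum, hr]; omega
        have h3 := key_value hp hinj (hS'.ok (o' c.1.1)) (comb K1 w0 ω) c.1.2.1.2 _ h'.choose
          (by
            show comb K1 w0 ω (S'.key (o' c.1.1) h'.choose c.1.2.1.2) <
              Mk (S'.key (o' c.1.1) h'.choose c.1.2.1.2)
            rw [hch.2, hcomb]; exact hωk) hr'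
        have h4 : comb K1 w0 ω (S'.key (o' c.1.1) h'.choose c.1.2.1.2) =
          kval (S'.sd (o' c.1.1)) c.1.2.1.2 (X c.1.1 - (c.1.2.2.1 + c.1.2.2.2) - c.2)
            h'.choose := h3
        rw [hch.2, hcomb] at h4
        exact h4
  · -- the weights
    have hMM : (0 : ℝ) < MM p S.e R := by exact_mod_cast MM_pos hp S.e R
    have hMM' : (0 : ℝ) < MM p S'.e R' := by exact_mod_cast MM_pos hp S'.e R'
    have hw : ∀ z ∈ Cand, ∏ k ∈ fkt z, ((Mk (k : κ) : ℝ))⁻¹
        = ((MM p S.e R : ℝ) * MM p S'.e R')⁻¹ := by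
      intro z hz
      have hz1 := hCmem z hz
      rw [mem_product, mem_product, mem_product] at hz1
      have h1 : ∏ k ∈ fkt z, ((Mk (k : κ) : ℝ))⁻¹
          = ∏ k ∈ (S.sd (o z.1.1)).fk R z.1.2.1.1 ∪ (S'.sd (o' z.1.1)).fk R' z.1.2.1.2,
            ((Mk k : ℝ))⁻¹ := by
        rw [← Finset.prod_image (s := fkt z) (g := fun k : K1 => (k : κ))
          (f := fun k => ((Mk k : ℝ))⁻¹) (fun a _ b _ hab => Subtype.ext hab)]
        congr 1
        ext k
        rw [mem_image]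
        constructor
        · rintro ⟨k', hk', rfl⟩
          rw [hfkt] at hk'
          simp only [mem_filter, mem_univ, true_and] at hk'
          exact hk'
        · intro hk
          have hkK : k ∈ K1 := by
            rw [mem_union, Side.fk, Side.fk, mem_image, mem_image] at hk
            rcases hk with ⟨i, hi, rfl⟩ | ⟨i, hi, rfl⟩
            · rw [hR, fam, mem_filter] at hi
              exact (hK _ hz1.1 _ hz1.2.1.1 i).2 hi.2
            · rw [hR', fam, mem_filter] at hi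
              exact (hK' _ hz1.1 _ hz1.2.1.2 i).2 hi.2
          refine ⟨⟨k, hkK⟩, ?_, rfl⟩
          rw [hfkt]
          simp only [mem_filter, mem_univ, true_and]
          exact hk
      rw [h1, Finset.prod_union, (hS.ok (o z.1.1)).prod_fk, (hS'.ok (o' z.1.1)).prod_fk, mul_inv]
      · rfl
      · rw [Finset.disjoint_left]
        intro k hk hk'
        rw [Side.fk, mem_image] at hk hk'
        obtain ⟨i, _, hi⟩ := hk
        obtain ⟨i', _, hi'⟩ := hk'
        exact hdisj _ i _ _ i' _ (hi.trans hi'.symm)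
    rw [Finset.sum_congr rfl hw, Finset.sum_const, nsmul_eq_mul, ← div_eq_mul_inv,
      div_le_iff₀ (by positivity)]
    refine le_trans ?_ hq
    exact_mod_cast hCc
  · intro ω hω
    rw [mem_filter] at hω
    obtain ⟨hω1, T, hT, hTc, hhit, hne⟩ := hω
    refine ⟨hω1, T.image (fun t => (t, (S.sd (o t.1)).cd hp hinj (comb K1 w0 ω) t.2.1.1)),
      ?_, ?_, ?_, ?_⟩
    · intro c hc
      rw [mem_image] at hc
      obtain ⟨t, ht, rfl⟩ := hc
      rw [hCand, mem_biUnion]
      refine ⟨t, hT ht, ?_⟩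
      rw [mem_image]
      refine ⟨_, ?_, rfl⟩
      unfold vals
      rw [mem_image]
      exact ⟨ω, mem_filter.2 ⟨hω1, hhit t ht⟩, rfl⟩
    · rw [card_image_of_injective _ (fun a b hab => (Prod.mk.injEq _ _ _ _ ▸ hab).1), hTc]
    · intro c hc
      rw [mem_image] at hc
      obtain ⟨t, ht, rfl⟩ := hc
      exact ⟨rfl, hhit t ht⟩
    · intro c hc c2 hc2 hcc
      rw [mem_image] at hc hc2
      obtain ⟨t, ht, rfl⟩ := hc
      obtain ⟨t2, ht2, rfl⟩ := hc2
      have htt : t ≠ t2 := by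
        rintro rfl
        exact hcc rfl
      obtain ⟨h1, h2⟩ := hne t ht t2 ht2 htt
      have d1 := hS.disj r0 h1
      have d2 := hS'.disj r0' h2
      rw [Finset.disjoint_left]
      intro k hk hk'
      rw [hfkt] at hk hk'
      simp only [mem_filter, mem_univ, true_and, mem_union] at hk hk'
      rcases hk with hk | hk <;> rcases hk' with hk' | hk'
      · exact (Finset.disjoint_left.1 d1 hk) hk'
      · rw [Side.fk, mem_image] at hk hk'
        obtain ⟨i, _, hi⟩ := hk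
        obtain ⟨i', _, hi'⟩ := hk'
        exact hdisj _ i _ _ i' _ (hi.trans hi'.symm)
      · rw [Side.fk, mem_image] at hk hk'
        obtain ⟨i, _, hi⟩ := hk
        obtain ⟨i', _, hi'⟩ := hk'
        exact hdisj _ i' _ _ i _ (hi'.trans hi.symm)
      · exact (Finset.disjoint_left.1 d2 hk) hk'

end Pool.Agent.Helper87.OUT2
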