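import Pool.Agent.Helper87.OUT2.Bound

/-!
# T5b, line 5: the union of the four patterns, and the extraction of a pattern
-/

set_option autoImplicit false

namespace Pool.Agent.Helper87.OUT2

open Finset Pool.Agent.Helper84.T5b Pool.Agent.Helper57.T5
open Pool.Agent.Helper37.T5b Pool.Agent.Helper39.T5
open Pool.Agent.Helper5.ET (bb mask)
open Pool.Agent.Helper30.T5b (QF QT RT PZ ez NL)
open Pool.Agent.Helper22.HW
open Pool.Agent.Helper30.T5b (pz)
open Pool.Agent.Helper27.T4 (NN MM fx NN_fx_mul MM_pos NN_pos)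
open Pool.Agent.Helper42.T5.Pr
open Pool.Agent.Helper22.SL (rk3)
open Pool.Agent.Helper94.T5b (Cst PatE exists_PatE)

variable {m k : ℕ}

/-- the vectors of the outermost level whose family `0` has the value `v` -/
noncomputable def Yv (m k s v : ℕ) : Finset (Fin 3 → ℕ) := (Y0 m k s).filter (fun y => y 0 = v)

/-- one of the four patterns -/
def Four (m k s l l' : ℕ) (n : ℕ) (z z' : Fin 3 → ℕ) (M : ℕ) (w : Key → ℕ) : Prop :=
  ((∃ v ∈ range (QF m k s 0), TSet m k s l l' w n z z' (Y0 m k s) (Yv m k s v) 0 3 M) ∨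
    TSet m k s l l' w n z z' (Y0 m k s) (Y0 m k s) 0 1 M) ∨
  ((∃ v ∈ range (QF m k s 0), TSet m k s l l' w n z z' (Yv m k s v) (Y0 m k s) 3 0 M) ∨
    TSet m k s l l' w n z z' (Y0 m k s) (Y0 m k s) 1 0 M)

theorem lt_QF {s : ℕ} {y : Fin 3 → ℕ} (hy : y ∈ Y0 m k s) : y 0 ∈ range (QF m k s 0) := by
  unfold Y0 TT at hy
  rw [Fintype.mem_piFinset] at hy
  have h := (mem_T1.1 (hy 0))
  rw [mem_range]
  have h1 : y 0 ≤ y 0 ^ 2 := Nat.le_self_pow (by norm_num) _
  exact lt_of_le_of_lt h1 h.2.2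

theorem mem_Yv {s v : ℕ} {y : Fin 3 → ℕ} (hy : y ∈ Y0 m k s) (h : y 0 = v) : y ∈ Yv m k s v := by
  unfold Yv
  exact mem_filter.2 ⟨hy, h⟩

/-! ## probability -/

theorem Nb.e1 {s l l' Lb : ℕ} {S : ℝ} (h : Nb m k s l l' Lb S) (hm : 0 < m) {n : ℕ}
    (hs : sL m k l = s) (hs' : sL m k l' = s)
    (hne : l ≠ l') (hr : 0 < rL m k l) (hr' : 0 < rL m k l') (hbb : bb 0 ≤ mL m k l)
    (hbb' : bb 0 ≤ mL m k l') (z z' : Fin 3 → ℕ)
    (hLb : ∀ w, (LabJ m k l l' w n z z').card ≤ Lb) (v M : ℕ) {K : Finset Key}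
    (hK : keysOf m k l ⊆ K) (hK' : keysOf m k l' ⊆ K) :
    PrLe (Mk m k) K (fun w => TSet m k s l l' w n z z' (Y0 m k s) (Yv m k s v) 0 3 M)
      (Real.exp (28 * S) * Real.exp (-(S / 20)) ^ M) := by
  have hQ : 0 < QT m k s := Pool.Agent.Helper30.T5b.QT_pos m k s
  have hp := h.price_c (card_Y0_sq m k s) (card_Yv_sq m k s v)
  have hq : ((Lb * (((Y0 m k s).card * (Yv m k s v).card) * (BW m k l * BW m k l')) * 2 : ℕ) : ℝ) ≤
      Real.exp (-(S / 20)) * ((MM (pz k s) (zf m k s) (fam rk3 0) : ℝ) *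
        MM (pz k s) (zf m k s) (fam rk3 3)) := by
    rw [MM_zero, MM_three, Nat.cast_one, mul_one]
    exact hp
  refine PrLe_mono (fun _ _ hw => hw) ?_ (case_bound hm hs hs' hne hr hr' hbb hbb' z z'
    (Y := Y0 m k s) (Y' := Yv m k s v) subset_rfl (filter_subset _ _) 0 3 hLb (G := 2) ?_
    (Real.exp_pos _).le hq M hK hK')
  · refine mul_le_mul_of_nonneg_right ?_ (by positivity)
    refine h.qq hp (Nat.cast_nonneg _) ?_
    exact le_mul_of_one_le_right (Nat.cast_nonneg _) h.q1_le.2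
  · rw [NNfx_zero, NNfx_three, NN_eq_QT]
    refine G_three (Nat.lcm_pos (Nat.mul_pos h.pos one_pos) (Nat.mul_pos h.pos' hQ)) (Or.inr ?_)
    exact Nat.le_of_dvd (Nat.lcm_pos (Nat.mul_pos h.pos one_pos) (Nat.mul_pos h.pos' hQ))
      (Nat.dvd_lcm_right _ _)

theorem Nb.e2 {s l l' Lb : ℕ} {S : ℝ} (h : Nb m k s l l' Lb S) (hm : 0 < m) {n : ℕ}
    (hs : sL m k l = s) (hs' : sL m k l' = s)
    (hne : l ≠ l') (hr : 0 < rL m k l) (hr' : 0 < rL m k l') (hbb : bb 0 ≤ mL m k l)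
    (hbb' : bb 0 ≤ mL m k l') (z z' : Fin 3 → ℕ)
    (hLb : ∀ w, (LabJ m k l l' w n z z').card ≤ Lb) (M : ℕ) {K : Finset Key}
    (hK : keysOf m k l ⊆ K) (hK' : keysOf m k l' ⊆ K) :
    PrLe (Mk m k) K (fun w => TSet m k s l l' w n z z' (Y0 m k s) (Y0 m k s) 0 1 M)
      (Real.exp (28 * S) * Real.exp (-(S / 20)) ^ M) := by
  have hQ0 : 0 < QF m k s 0 := Pool.Agent.Helper30.T5b.QF_pos m k s 0
  have hp := h.price_d (card_Y0_sq m k s) (card_Y0_sq m k s)
  have hq : ((Lb * (((Y0 m k s).card * (Y0 m k s).card) * (BW m k l * BW m k l')) *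
      (M0 m k l' * Q1 m k s / M0 m k l + 1) : ℕ) : ℝ) ≤
      Real.exp (-(S / 20)) * ((MM (pz k s) (zf m k s) (fam rk3 0) : ℝ) *
        MM (pz k s) (zf m k s) (fam rk3 1)) := by
    rw [MM_zero]
    exact hp
  refine PrLe_mono (fun _ _ hw => hw) ?_ (case_bound hm hs hs' hne hr hr' hbb hbb' z z'
    (Y := Y0 m k s) (Y' := Y0 m k s) subset_rfl subset_rfl 0 1 hLb
    (G := M0 m k l' * Q1 m k s / M0 m k l + 1) ?_ (Real.exp_pos _).le hq M hK hK')
  · refine mul_le_mul_of_nonneg_right ?_ (by positivity)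
    refine h.qq hp (mul_nonneg (Nat.cast_nonneg _) (Nat.cast_nonneg _)) ?_
    exact mul_le_mul_of_nonneg_left h.q1_le.1 (Nat.cast_nonneg _)
  · rw [NNfx_zero, NNfx_one, NN_eq_QT, QT_eq]
    refine G_one h.pos hQ0 ?_
    refine Nat.le_of_dvd (Nat.lcm_pos (Nat.mul_pos h.pos one_pos) (Nat.mul_pos h.pos' hQ0)) ?_
    refine Nat.Coprime.mul_dvd_of_dvd_of_dvd h.cop ?_ ?_
    · exact (Dvd.intro _ (rfl : M0 m k l * 1 = _)).trans (Nat.dvd_lcm_left _ _)
    · exact (Dvd.intro_left _ (rfl : M0 m k l' * QF m k s 0 = _)).trans (Nat.dvd_lcm_right _ _)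

theorem Nb.e3 {s l l' Lb : ℕ} {S : ℝ} (h : Nb m k s l l' Lb S) (hm : 0 < m) {n : ℕ}
    (hs : sL m k l = s) (hs' : sL m k l' = s)
    (hne : l ≠ l') (hr : 0 < rL m k l) (hr' : 0 < rL m k l') (hbb : bb 0 ≤ mL m k l)
    (hbb' : bb 0 ≤ mL m k l') (z z' : Fin 3 → ℕ)
    (hLb : ∀ w, (LabJ m k l l' w n z z').card ≤ Lb) (v M : ℕ) {K : Finset Key}
    (hK : keysOf m k l ⊆ K) (hK' : keysOf m k l' ⊆ K) :
    PrLe (Mk m k) K (fun w => TSet m k s l l' w n z z' (Yv m k s v) (Y0 m k s) 3 0 M)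
      (Real.exp (28 * S) * Real.exp (-(S / 20)) ^ M) := by
  have hQ : 0 < QT m k s := Pool.Agent.Helper30.T5b.QT_pos m k s
  have hp := h.price_c (card_Y0_sq m k s) (card_Yv_sq m k s v)
  rw [mul_comm (Y0 m k s).card] at hp
  have hq : ((Lb * (((Yv m k s v).card * (Y0 m k s).card) * (BW m k l * BW m k l')) * 2 : ℕ) : ℝ) ≤
      Real.exp (-(S / 20)) * ((MM (pz k s) (zf m k s) (fam rk3 3) : ℝ) *
        MM (pz k s) (zf m k s) (fam rk3 0)) := by
    rw [MM_zero, MM_three, Nat.cast_one, one_mul]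
    exact hp
  refine PrLe_mono (fun _ _ hw => hw) ?_ (case_bound hm hs hs' hne hr hr' hbb hbb' z z'
    (Y := Yv m k s v) (Y' := Y0 m k s) (filter_subset _ _) subset_rfl 3 0 hLb (G := 2) ?_
    (Real.exp_pos _).le hq M hK hK')
  · refine mul_le_mul_of_nonneg_right ?_ (by positivity)
    refine h.qq hp (Nat.cast_nonneg _) ?_
    exact le_mul_of_one_le_right (Nat.cast_nonneg _) h.q1_le.2
  · rw [NNfx_zero, NNfx_three, NN_eq_QT]
    refine G_three (Nat.lcm_pos (Nat.mul_pos h.pos hQ) (Nat.mul_pos h.pos' one_pos)) (Or.inl ?_)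
    exact Nat.le_of_dvd (Nat.lcm_pos (Nat.mul_pos h.pos hQ) (Nat.mul_pos h.pos' one_pos))
      (Nat.dvd_lcm_left _ _)

theorem Nb.e4 {s l l' Lb : ℕ} {S : ℝ} (h : Nb m k s l l' Lb S) (hm : 0 < m) {n : ℕ}
    (hs : sL m k l = s) (hs' : sL m k l' = s)
    (hne : l ≠ l') (hr : 0 < rL m k l) (hr' : 0 < rL m k l') (hbb : bb 0 ≤ mL m k l)
    (hbb' : bb 0 ≤ mL m k l') (z z' : Fin 3 → ℕ)
    (hLb : ∀ w, (LabJ m k l l' w n z z').card ≤ Lb) (M : ℕ) {K : Finset Key}
    (hK : keysOf m k l ⊆ K) (hK' : keysOf m k l' ⊆ K) :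
    PrLe (Mk m k) K (fun w => TSet m k s l l' w n z z' (Y0 m k s) (Y0 m k s) 1 0 M)
      (Real.exp (28 * S) * Real.exp (-(S / 20)) ^ M) := by
  have hQ0 : 0 < QF m k s 0 := Pool.Agent.Helper30.T5b.QF_pos m k s 0
  have hp := h.price_d (card_Y0_sq m k s) (card_Y0_sq m k s)
  have hq : ((Lb * (((Y0 m k s).card * (Y0 m k s).card) * (BW m k l * BW m k l')) *
      (M0 m k l' * Q1 m k s / M0 m k l + 1) : ℕ) : ℝ) ≤
      Real.exp (-(S / 20)) * ((MM (pz k s) (zf m k s) (fam rk3 1) : ℝ) *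
        MM (pz k s) (zf m k s) (fam rk3 0)) := by
    rw [MM_zero, mul_comm ((MM (pz k s) (zf m k s) (fam rk3 1) : ℕ) : ℝ)]
    exact hp
  refine PrLe_mono (fun _ _ hw => hw) ?_ (case_bound hm hs hs' hne hr hr' hbb hbb' z z'
    (Y := Y0 m k s) (Y' := Y0 m k s) subset_rfl subset_rfl 1 0 hLb
    (G := M0 m k l' * Q1 m k s / M0 m k l + 1) ?_ (Real.exp_pos _).le hq M hK hK')
  · refine mul_le_mul_of_nonneg_right ?_ (by positivity)
    refine h.qq hp (mul_nonneg (Nat.cast_nonneg _) (Nat.cast_nonneg _)) ?_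
    exact mul_le_mul_of_nonneg_left h.q1_le.1 (Nat.cast_nonneg _)
  · rw [NNfx_zero, NNfx_one, NN_eq_QT, QT_eq]
    refine G_one h.pos hQ0 ?_
    refine Nat.le_of_dvd (Nat.lcm_pos (Nat.mul_pos h.pos hQ0) (Nat.mul_pos h.pos' one_pos)) ?_
    exact Nat.dvd_lcm_left _ _

/-- **the probability of the four patterns** -/
theorem Nb.four {s l l' Lb : ℕ} {S : ℝ} (h : Nb m k s l l' Lb S) (hm : 0 < m) {n : ℕ}
    (hs : sL m k l = s) (hs' : sL m k l' = s)
    (hne : l ≠ l') (hr : 0 < rL m k l) (hr' : 0 < rL m k l') (hbb : bb 0 ≤ mL m k l)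
    (hbb' : bb 0 ≤ mL m k l') (z z' : Fin 3 → ℕ)
    (hLb : ∀ w, (LabJ m k l l' w n z z').card ≤ Lb) (M : ℕ) {K : Finset Key}
    (hK : keysOf m k l ⊆ K) (hK' : keysOf m k l' ⊆ K) :
    PrLe (Mk m k) K (Four m k s l l' n z z' M) (Real.exp (43 * S) * Real.exp (-(S / 20)) ^ M) := by
  set ε := Real.exp (28 * S) * Real.exp (-(S / 20)) ^ M with hε
  have hε0 : 0 ≤ ε := by positivity
  have h1 := PrLe_exists (range (QF m k s 0))
    (fun v _ => h.e1 hm hs hs' hne hr hr' hbb hbb' z z' hLb v M hK hK')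
  have h2 := h.e2 hm hs hs' hne hr hr' hbb hbb' z z' hLb M hK hK'
  have h3 := PrLe_exists (range (QF m k s 0))
    (fun v _ => h.e3 hm hs hs' hne hr hr' hbb hbb' z z' hLb v M hK hK')
  have h4 := h.e4 hm hs hs' hne hr hr' hbb hbb' z z' hLb M hK hK'
  refine PrLe_mono (fun _ _ hw => hw) ?_ (PrLe_or (PrLe_or h1 h2) (PrLe_or h3 h4))
  rw [sum_const, card_range, nsmul_eq_mul, ← hε]
  have h5 : (QF m k s 0 : ℝ) ≤ Real.exp (14 * S) := by
    refine le_trans ?_ h.qt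
    have h6 : QF m k s 0 ≤ QT m k s := by
      rw [QT_eq]
      exact Nat.le_mul_of_pos_right _ (Q1_pos m k s)
    exact_mod_cast h6
  have h6 : (1 : ℝ) ≤ Real.exp (14 * S) := by
    rw [← Real.exp_zero]
    refine Real.exp_le_exp.2 ?_
    have := h.S1
    linarith
  have h7 : (4 : ℝ) ≤ Real.exp S := by
    have h8 : (2 : ℝ) ^ 2 ≤ Real.exp 1 ^ 2 := pow_le_pow_left₀ (by norm_num) two_le_exp_one 2
    rw [← Real.exp_nat_mul] at h8
    refine le_trans (by norm_num at h8 ⊢; exact h8) (Real.exp_le_exp.2 ?_ : Real.exp (2 * 1) ≤ _)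
    have := h.S1
    linarith
  have h8 : Real.exp (43 * S) = Real.exp S * Real.exp (14 * S) * Real.exp (28 * S) := by
    rw [← Real.exp_add, ← Real.exp_add]
    congr 1
    ring
  calc (QF m k s 0 : ℝ) * ε + ε + ((QF m k s 0 : ℝ) * ε + ε)
      ≤ (Real.exp (14 * S) * ε + Real.exp (14 * S) * ε) +
        (Real.exp (14 * S) * ε + Real.exp (14 * S) * ε) := by
        have a := mul_le_mul_of_nonneg_right h5 hε0
        have b := mul_le_mul_of_nonneg_right h6 hε0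
        linarith
    _ = 4 * (Real.exp (14 * S) * ε) := by ring
    _ ≤ Real.exp S * (Real.exp (14 * S) * ε) := mul_le_mul_of_nonneg_right h7 (by positivity)
    _ = _ := by
        rw [h8, hε]
        ring

/-! ## extraction -/

/-- the number of labels with constant keyed coordinates is at most `c` -/
def ConstLe (m k l l' : ℕ) (c : ℕ) : Prop :=
  ∀ (w : Key → ℕ) (n : ℕ) (z z' : Fin 3 → ℕ), ∀ S ⊆ LabJ m k l l' w n z z',
    (∀ q ∈ S, ∀ r ∈ S, okey m k l 0 q.1 = okey m k l 0 r.1) →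
    (∀ q ∈ S, ∀ r ∈ S, okey m k l' 0 q.2 = okey m k l' 0 r.2) → S.card ≤ c

/-- **extraction of a pattern** -/
theorem four_of_large (hm : 0 < m) {s l l' n : ℕ} (hs : sL m k l = s) (hs' : sL m k l' = s)
    (hr : 0 < rL m k l) (hr' : 0 < rL m k l') {w : Key → ℕ} (hw : Rg m k l w)
    (hw' : Rg m k l' w) (z z' : Fin 3 → ℕ)
    (hL : LabH m k l l' w n z z' ⊆ LabJ m k l l' w n z z') {c M : ℕ}
    (hc : ConstLe m k l l' c) (hM : c < M + 1)
    (hbig : (M + 1) ^ 16 ≤ (LabH m k l l' w n z z').card) : Four m k s l l' n z z' M w := by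
  classical
  obtain ⟨T0, hT0, hcard, hhit, hinj⟩ := exists_T0 hm hs hs' hr hr' hw hw' z z' _ hL
  obtain ⟨C, C', b, b', T, hT, hTc, hpat⟩ := exists_PatE (ι := Unit)
    (fun (t : HT) _ => t.2.1.1 0) (fun (t : HT) _ => t.2.1.2 0)
    (fun t : HT => okey m k l 0 t.1.1) (fun t : HT => okey m k l' 0 t.1.2) T0 (M + 1)
    (by omega) (by
      rw [hcard]
      simpa using hbig)
  have hsub := hT.trans hT0
  have hY : ∀ t ∈ T, t.1 ∈ LabJ m k l l' w n z z' ∧ t.2.1.1 ∈ Y0 m k s ∧ t.2.1.2 ∈ Y0 m k s ∧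
      t.2.2 ∈ BS m k l ×ˢ BS m k l' := by
    intro t ht
    have h1 := hsub ht
    rw [mem_product, mem_product, mem_product] at h1
    exact ⟨h1.1, h1.2.1.1, h1.2.1.2, h1.2.2⟩
  have hne : T.Nonempty := by
    rw [← card_pos, hTc]
    exact Nat.succ_pos M
  obtain ⟨t0, ht0⟩ := hne
  have hh : ∀ t ∈ T, HitG m k s l l' w n w t := fun t ht => hhit t (hT ht)
  rcases Bool.eq_false_or_eq_true b with hb | hb
  · -- outer keys of the left side different
    have ho := hpat.odl hb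
    left
    by_cases hC : () ∈ C'
    · left
      have hcst := hpat.cr () hC
      refine ⟨t0.2.1.2 0, lt_QF (hY t0 ht0).2.2.1, T, ?_, hTc, hh, ?_⟩
      · intro t ht
        obtain ⟨h1, h2, h3, h4⟩ := hY t ht
        rw [mem_product, mem_product, mem_product]
        exact ⟨h1, ⟨h2, mem_Yv h3 (hcst t ht t0 ht0)⟩, h4⟩
      · intro t ht t2 ht2 htt
        exact ⟨Or.inr (Or.inl (fun h => htt (ho ht ht2 h))), Or.inl fam_three⟩
    · right
      have hdl := hpat.dr () hC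
      refine ⟨T, hsub, hTc, hh, ?_⟩
      intro t ht t2 ht2 htt
      refine ⟨Or.inr (Or.inl (fun h => htt (ho ht ht2 h))), Or.inr (Or.inr ⟨0, by simp [rk3], ?_⟩)⟩
      exact fun h => htt (hdl ht ht2 h)
  · rcases Bool.eq_false_or_eq_true b' with hb' | hb'
    · -- outer keys of the right side different
      have ho := hpat.odr hb'
      right
      by_cases hC : () ∈ C
      · left
        have hcst := hpat.cl () hC
        refine ⟨t0.2.1.1 0, lt_QF (hY t0 ht0).2.1, T, ?_, hTc, hh, ?_⟩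
        · intro t ht
          obtain ⟨h1, h2, h3, h4⟩ := hY t ht
          rw [mem_product, mem_product, mem_product]
          exact ⟨h1, ⟨mem_Yv h2 (hcst t ht t0 ht0), h3⟩, h4⟩
        · intro t ht t2 ht2 htt
          exact ⟨Or.inl fam_three, Or.inr (Or.inl (fun h => htt (ho ht ht2 h)))⟩
      · right
        have hdl := hpat.dl () hC
        refine ⟨T, hsub, hTc, hh, ?_⟩
        intro t ht t2 ht2 htt
        refine ⟨Or.inr (Or.inr ⟨0, by simp [rk3], ?_⟩),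
          Or.inr (Or.inl (fun h => htt (ho ht ht2 h)))⟩
        exact fun h => htt (hdl ht ht2 h)
    · -- both constant
      exfalso
      have h1 := hpat.ocl hb
      have h2 := hpat.ocr hb'
      have h3 : (T.image Prod.fst).card = T.card := card_image_of_injOn (hinj.mono (by exact_mod_cast hT))
      have h4 := hc w n z z' (T.image Prod.fst) (by
        intro g hg
        rw [mem_image] at hg
        obtain ⟨t, ht, rfl⟩ := hg
        exact (hY t ht).1) (by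
        intro q hq r hr
        rw [mem_image] at hq hr
        obtain ⟨t, ht, rfl⟩ := hq
        obtain ⟨t2, ht2, rfl⟩ := hr
        exact h1 t ht t2 ht2) (by
        intro q hq r hr
        rw [mem_image] at hq hr
        obtain ⟨t, ht, rfl⟩ := hq
        obtain ⟨t2, ht2, rfl⟩ := hr
        exact h2 t ht t2 ht2)
      omega

end Pool.Agent.Helper87.OUT2
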