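import Pool.Agent.Helper87.OUT2.Inst
import Pool.Agent.Helper94.T5b.Pat

/-!
# T5b, line 5: the probability bound for the four patterns of the outermost static level
-/

set_option autoImplicit false

namespace Pool.Agent.Helper87.OUT2

open Finset Pool.Agent.Helper84.T5b Pool.Agent.Helper57.T5
open Pool.Agent.Helper37.T5b Pool.Agent.Helper39.T5
open Pool.Agent.Helper5.ET (bb mask)
open Pool.Agent.Helper30.T5b (QF QT RT PZ ez NL)
open Pool.Agent.Helper22.HW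
open Pool.Agent.Helper30.T5b (pz)
open Pool.Agent.Helper27.T4 (NN MM fx)
open Pool.Agent.Helper42.T5.Pr
open Pool.Agent.Helper22.SL (rk3)
open Pool.Agent.Helper29.T4 (Om)

variable {m k : ℕ}

/-- the fresh keys of a pattern -/
def isF (l l' r0 r0' : ℕ) : Key → Prop
  | Key.S l1 t f _ _ => t = 0 ∧ ((l1 = l ∧ r0 ≤ (f : ℕ)) ∨ (l1 = l' ∧ r0' ≤ (f : ℕ)))
  | Key.J _ _ _ => False
  | Key.V _ _ _ => False

theorem comb_eq_glue {κ : Type*} [DecidableEq κ] (K0 K : Finset κ) (r : K0 → ℕ)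
    (ω : (K \ K0 : Finset κ) → ℕ) :
    comb (K \ K0) (ext K0 r) ω = glue K0 (ext K0 r) (ext (K \ K0) ω) := by
  funext x
  by_cases hx : x ∈ K0
  · rw [glue_mem _ _ _ hx, comb, dif_neg (fun h => (mem_sdiff.1 h).2 hx)]
  · rw [glue_not_mem _ _ _ hx]
    by_cases hx1 : x ∈ K \ K0
    · rw [comb, dif_pos hx1, ext_mem _ hx1]
    · rw [comb, dif_neg hx1, ext_not_mem _ hx1, ext_not_mem _ hx]

theorem c0_congr {l : ℕ} {w w' : Key → ℕ} (h : ∀ i x, w (Key.J l i x) = w' (Key.J l i x))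
    (x : JF → ℕ) : c0 m k l w x = c0 m k l w' x := by
  unfold c0
  congr 1
  funext i
  unfold cmp0
  rw [h]

theorem labJ_congr {l l' : ℕ} {w w' : Key → ℕ}
    (h : ∀ l1 i x, w (Key.J l1 i x) = w' (Key.J l1 i x)) (n : ℕ) (z z' : Fin 3 → ℕ) :
    LabJ m k l l' w n z z' = LabJ m k l l' w' n z z' := by
  unfold LabJ
  refine filter_congr (fun q _ => ?_)
  rw [c0_congr (h l) q.1, c0_congr (h l') q.2]

theorem Xg_congr {l l' : ℕ} {w w' : Key → ℕ}
    (h : ∀ l1 i x, w (Key.J l1 i x) = w' (Key.J l1 i x)) (n : ℕ) :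
    Xg m k l l' w n = Xg m k l l' w' n := by
  funext g
  unfold Xg
  rw [c0_congr (h l) g.1, c0_congr (h l') g.2]

/-- a set of hits of the outermost level with different fresh keys -/
def TSet (m k s l l' : ℕ) (w : Key → ℕ) (n : ℕ) (z z' : Fin 3 → ℕ) (Y Y' : Finset (Fin 3 → ℕ))
    (r0 r0' M : ℕ) : Prop :=
  ∃ T ⊆ LabJ m k l l' w n z z' ×ˢ ((Y ×ˢ Y') ×ˢ (BS m k l ×ˢ BS m k l')), T.card = M + 1 ∧
    (∀ t ∈ T, HitG m k s l l' w n w t) ∧
    ∀ t ∈ T, ∀ t2 ∈ T, t ≠ t2 →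
      Dj rk3 r0 (okey m k l 0 t.1.1) (okey m k l 0 t2.1.1) t.2.1.1 t2.2.1.1 ∧
      Dj rk3 r0' (okey m k l' 0 t.1.2) (okey m k l' 0 t2.1.2) t.2.1.2 t2.2.1.2

theorem case_bound (hm : 0 < m) {s l l' n : ℕ} (hs : sL m k l = s) (hs' : sL m k l' = s)
    (hne : l ≠ l') (hr : 0 < rL m k l) (hr' : 0 < rL m k l') (hbb : bb 0 ≤ mL m k l)
    (hbb' : bb 0 ≤ mL m k l') (z z' : Fin 3 → ℕ) {Y Y' : Finset (Fin 3 → ℕ)}
    (hY : Y ⊆ Y0 m k s) (hY' : Y' ⊆ Y0 m k s) (r0 r0' : ℕ) {Lb : ℕ}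
    (hLb : ∀ w, (LabJ m k l l' w n z z').card ≤ Lb) {G : ℕ}
    (hG : min (M0 m k l * NN (pz k s) (zf m k s)) (M0 m k l' * NN (pz k s) (zf m k s)) /
        Nat.lcm (M0 m k l * NN (pz k s) (fx (zf m k s) (fam rk3 r0)))
          (M0 m k l' * NN (pz k s) (fx (zf m k s) (fam rk3 r0'))) + 1 ≤ G)
    {q : ℝ} (hq0 : 0 ≤ q) (hq : ((Lb * ((Y.card * Y'.card) * (BW m k l * BW m k l')) * G : ℕ) : ℝ) ≤
      q * ((MM (pz k s) (zf m k s) (fam rk3 r0) : ℝ) * MM (pz k s) (zf m k s) (fam rk3 r0')))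
    (M : ℕ) {K : Finset Key} (hK : keysOf m k l ⊆ K) (hK' : keysOf m k l' ⊆ K) :
    PrLe (Mk m k) K (fun w => TSet m k s l l' w n z z' Y Y' r0 r0' M)
      (((Lb * ((Y.card * Y'.card) * (BW m k l * BW m k l')) * G : ℕ) : ℝ) * q ^ M) := by
  classical
  set K0 := K.filter (fun key => ¬ isF l l' r0 r0' key) with hK0d
  have hK0 : K0 ⊆ K := filter_subset _ _
  refine PrLe_cond hK0 (by positivity) (fun r hrr => ?_)
  set w0 : Key → ℕ := ext K0 r with hw0
  have hmem : ∀ key ∈ K, (key ∈ K \ K0 ↔ isF l l' r0 r0' key) := by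
    intro key hkey
    rw [mem_sdiff, hK0d, mem_filter]
    constructor
    · rintro ⟨_, h⟩
      by_contra hn
      exact h ⟨hkey, hn⟩
    · intro h
      exact ⟨hkey, fun hh => hh.2 h⟩
  have hJ : ∀ (ω : (K \ K0 : Finset Key) → ℕ) l1 i x,
      comb (K \ K0) w0 ω (Key.J l1 i x) = w0 (Key.J l1 i x) := by
    intro ω l1 i x
    rw [comb, dif_neg]
    intro h
    have h1 := (hmem _ (mem_sdiff.1 h).1).1 h
    exact h1
  have hkS : ∀ g ∈ LabJ m k l l' w0 n z z', ∀ y ∈ Y, ∀ i,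
      ((oS m k s l (M0 m k l)).key (okey m k l 0 g.1) i y ∈ K \ K0 ↔ r0 ≤ rk3 i) := by
    intro g hg y hy i
    have hg1 : g.1 ∈ XJ m k l := by
      unfold LabJ at hg
      rw [mem_filter, mem_product] at hg
      exact hg.1.1
    have hkey : (oS m k s l (M0 m k l)).key (okey m k l 0 g.1) i y ∈ K := by
      apply hK
      refine Pool.Agent.Helper54.T5b.Skey_mem hm hbb hr
        (Pool.Agent.Helper54.T5b.okey_lt hm hbb hg1 0) ?_ i
      rw [Ys_eq hs]
      exact hY hy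
    rw [hmem _ hkey]
    constructor
    · rintro ⟨_, ⟨_, h⟩ | ⟨h, _⟩⟩
      · exact h
      · exact absurd h hne
    · intro h
      exact ⟨rfl, Or.inl ⟨rfl, h⟩⟩
  have hkS' : ∀ g ∈ LabJ m k l l' w0 n z z', ∀ y ∈ Y', ∀ i,
      ((oS m k s l' (M0 m k l')).key (okey m k l' 0 g.2) i y ∈ K \ K0 ↔ r0' ≤ rk3 i) := by
    intro g hg y hy i
    have hg1 : g.2 ∈ XJ m k l' := by
      unfold LabJ at hg
      rw [mem_filter, mem_product] at hg
      exact hg.1.2
    have hkey : (oS m k s l' (M0 m k l')).key (okey m k l' 0 g.2) i y ∈ K := by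
      apply hK'
      refine Pool.Agent.Helper54.T5b.Skey_mem hm hbb' hr'
        (Pool.Agent.Helper54.T5b.okey_lt hm hbb' hg1 0) ?_ i
      rw [Ys_eq hs']
      exact hY' hy
    rw [hmem _ hkey]
    constructor
    · rintro ⟨_, ⟨h, _⟩ | ⟨_, h⟩⟩
      · exact absurd h.symm hne
      · exact h
    · intro h
      exact ⟨rfl, Or.inr ⟨rfl, h⟩⟩
  have hcard : (((LabJ m k l l' w0 n z z').card *
      ((Y.card * Y'.card) * (BS m k l ×ˢ BS m k l').card) * G : ℕ) : ℝ) ≤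
      ((Lb * ((Y.card * Y'.card) * (BW m k l * BW m k l')) * G : ℕ) : ℝ) := by
    rw [card_product]
    exact_mod_cast Nat.mul_le_mul_right _ (Nat.mul_le_mul (hLb w0)
      (Nat.mul_le_mul_left _ (Nat.mul_le_mul (card_BS m k l) (card_BS m k l'))))
  have main := out_bound (pz_prime k s) (pz_inj k s) (oS_ok (m := m) (k := k) hs)
    (oS_ok (m := m) (k := k) hs') (by
      intro o i y o' i' y' h
      have h' : Key.S l 0 i o (mask (univ.filter (fun g => g < i)) y) =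
        Key.S l' 0 i' o' (mask (univ.filter (fun g => g < i')) y') := h
      injection h' with h1
      exact hne h1) (Mk_pos m k)
    (fun g : (JF → ℕ) × (JF → ℕ) => okey m k l 0 g.1) (fun g => okey m k l' 0 g.2)
    (Xg m k l l' w0 n) r0 r0' (K \ K0) w0 (LabJ m k l l' w0 n z z') Y Y'
    (BS m k l ×ˢ BS m k l') hkS hkS' G hG q (hcard.trans hq) hq0 M
  unfold PrLe
  refine le_trans ?_ (main.trans ?_)
  · rw [Nat.cast_le]
    refine card_le_card ?_
    intro ω hω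
    rw [mem_filter] at hω
    obtain ⟨hω1, T, hT, hTc, hh, hd⟩ := hω
    refine (@Finset.mem_filter _ _ (_) _ _).2 ⟨hω1, T, ?_, hTc, ?_, ?_⟩
    · rw [← labJ_congr (hJ ω) n z z', comb_eq_glue]
      exact hT
    · intro t ht
      have h1 := hh t ht
      rw [← comb_eq_glue] at h1
      unfold HitG at h1
      rw [Xg_congr (hJ ω) n] at h1
      exact h1
    · intro t ht t2 ht2 htt
      exact hd t ht t2 ht2 htt
  · rw [mul_comm]
    exact mul_le_mul_of_nonneg_right (mul_le_mul_of_nonneg_right hcard (pow_nonneg hq0 M))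
      (Nat.cast_nonneg _)

end Pool.Agent.Helper87.OUT2
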