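import Pool.Agent.Helper87.OUT2.Four
import Pool.Agent.Helper25.T5b.UpNum
import Pool.Agent.Helper25.T5b.Void
import Pool.Agent.Helper25.T5b.Mov
import Pool.Agent.Helper75.T5b.Up
import Pool.Agent.Helper83.T5b.Leaf
import Pool.Agent.Helper84.T5b.Top

/-!
# T5b, line 5: the hits with given main vectors, for pairs above the joint front
-/

set_option autoImplicit false

namespace Pool.Agent.Helper87.OUT2

open Finset Pool.Agent.Helper84.T5b Pool.Agent.Helper57.T5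
open Pool.Agent.Helper37.T5b Pool.Agent.Helper39.T5
open Pool.Agent.Helper5.ET (bb mask era)
open Pool.Agent.Helper30.T5b (QF QT RT PZ ez NL BP)
open Pool.Agent.Helper22.HW
open Pool.Agent.Helper30.T5b (pz)
open Pool.Agent.Helper27.T4 (NN MM fx NN_fx_mul MM_pos NN_pos)
open Pool.Agent.Helper42.T5.Pr
open Pool.Agent.Helper22.SL (rk3)

/-- the deterministic statements on labels -/
structure LHyp : Prop where
  sub : ∀ {m k l l' : ℕ}, 0 < m → l' ≤ l → bb 0 ≤ mL m k l → bb 0 ≤ mL m k l' →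
    sL m k l' = sL m k l → ∀ (w : Key → ℕ) (n : ℕ) (z z' : Fin 3 → ℕ),
    LabH m k l l' w n z z' ⊆ LabJ m k l l' w n z z'
  card : ∀ {m k l l' : ℕ}, 0 < m → l' ≤ l → bb 0 ≤ mL m k l → bb 0 ≤ mL m k l' →
    sL m k l' = sL m k l → ∀ (w : Key → ℕ) (n : ℕ) (z z' : Fin 3 → ℕ),
    (LabJ m k l l' w n z z').card ≤ LB m k l l'
  cst : ∀ {m k l l' : ℕ}, 0 < m → l' ≤ l → bb 0 ≤ mL m k l → bb 0 ≤ mL m k l' →
    sL m k l' = sL m k l → ∀ (w : Key → ℕ) (n : ℕ) (z z' : Fin 3 → ℕ),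
    ∀ S ⊆ LabJ m k l l' w n z z',
    (∀ i : Fin 4, aJ m k (sL m k l) l (Sum.inr i) = aJ m k (sL m k l) l' (Sum.inr i) ∨
      ((∀ q ∈ S, ∀ r ∈ S, q.1 (Sum.inr i) = r.1 (Sum.inr i)) ∧
        ∀ q ∈ S, ∀ r ∈ S, q.2 (Sum.inr i) = r.2 (Sum.inr i))) →
    S.card ≤ ∏ i : Fin 4, (2 * pJ k (sL m k l) (Sum.inr i))

variable {m k : ℕ}

/-! ## constants -/

theorem pJ_inr_le (k s : ℕ) (i : Fin 4) : pJ k s (Sum.inr i) ≤ BP k := by
  refine Fin.cases ?_ (fun f => ?_) i
  · exact (Pool.Agent.Helper30.T5b.buf_lt_BP k).le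
  · exact Pool.Agent.Helper30.T5b.pz_le k (s + 1) f

theorem BP_pos (k : ℕ) : 0 < BP k :=
  lt_of_le_of_lt (Nat.zero_le _) (Pool.Agent.Helper30.T5b.buf_lt_BP k)

/-- a bound for the numbers of labels which are not random -/
noncomputable def C3 (k : ℕ) : ℕ := (2 * BP k) ^ 8

theorem C3_pos (k : ℕ) : 0 < C3 k := pow_pos (Nat.mul_pos (by norm_num) (BP_pos k)) 8

theorem prod_two_le (k s : ℕ) : ∏ i : Fin 4, (2 * pJ k s (Sum.inr i)) ≤ C3 k := by
  have h1 : ∏ i : Fin 4, (2 * pJ k s (Sum.inr i)) ≤ ∏ _i : Fin 4, (2 * BP k) :=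
    Finset.prod_le_prod' (fun i _ => Nat.mul_le_mul_left _ (pJ_inr_le k s i))
  refine h1.trans ?_
  rw [prod_const, card_univ, Fintype.card_fin]
  have := BP_pos k
  exact Nat.pow_le_pow_right (by omega) (by norm_num)

theorem prod_sq_le (k s : ℕ) : ∏ i : Fin 4, pJ k s (Sum.inr i) ^ 2 ≤ C3 k := by
  have h1 : ∏ i : Fin 4, pJ k s (Sum.inr i) ^ 2 ≤ ∏ _i : Fin 4, (2 * BP k) ^ 2 :=
    Finset.prod_le_prod' (fun i _ => Nat.pow_le_pow_left (by
      have := pJ_inr_le k s i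
      omega) 2)
  refine h1.trans ?_
  rw [prod_const, card_univ, Fintype.card_fin, ← pow_mul]
  exact le_rfl

theorem constLe_of (hL : LHyp) (hm : 0 < m) {l l' : ℕ} (hll : l' ≤ l) (hbb : bb 0 ≤ mL m k l)
    (hbb' : bb 0 ≤ mL m k l') (hN : Near m k l' l) (hs : Same m k l' l) :
    ConstLe m k l l' (C3 k) := by
  intro w n z z' S hS h1 h2
  refine (hL.cst hm hll hbb hbb' hs w n z z' S hS (fun i => ?_)).trans (prod_two_le k _)
  by_cases ha : aJ m k (sL m k l) l (Sum.inr i) = aJ m k (sL m k l) l' (Sum.inr i)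
  · exact Or.inl ha
  · right
    obtain ⟨g1, g2⟩ := Pool.Agent.Helper25.T5b.mov_keyed hm hll hN hs i ha
    have e : ∀ x : JF → ℕ, okey m k l 0 x (Sum.inr i) = x (Sum.inr i) := by
      intro x
      unfold okey
      rw [if_pos rfl]
      unfold maskJ
      rw [if_pos g1]
    have e' : ∀ x : JF → ℕ, okey m k l' 0 x (Sum.inr i) = x (Sum.inr i) := by
      intro x
      unfold okey
      rw [if_pos rfl]
      unfold maskJ
      rw [if_pos g2]
    refine ⟨fun q hq r hr => ?_, fun q hq r hr => ?_⟩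
    · rw [← e q.1, ← e r.1, h1 q hq r hr]
    · rw [← e' q.2, ← e' r.2, h2 q hq r hr]

/-! ## the numbers of a pair -/

theorem nb_of (hm : 0 < m) (k : ℕ) : ∃ l0 : ℕ, ∀ l l', l0 ≤ l' → l' ≤ l →
    CaseUp m k l' l → ¬ Vd m k l' l →
    l ≠ l' ∧ 1 ≤ SS m (sL m k l) ∧ SS m (sL m k l) ≤ l ∧
      Nb m k (sL m k l) l l' (LB m k l l') (SS m (sL m k l) : ℝ) := by
  obtain ⟨l1, h1⟩ := Pool.Agent.Helper75.T5b.log_LB_le hm k
  obtain ⟨l2, h2⟩ := Pool.Agent.Helper25.T5b.exists_up_num hm k 1000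
  refine ⟨l1 + l2, fun l l' hl' hll hc hv => ?_⟩
  obtain ⟨hN, hs, hup⟩ := hc
  obtain ⟨a1, a2, a3, a4, a5, a6, a7⟩ := h2 l (by omega)
  obtain ⟨b1, b2, b3, b4, b5, b6, b7⟩ := h2 l' (by omega)
  unfold Same at hs
  rw [hs] at b3 b4 b5 b6 b7
  push_cast at a4 a5 b4 b5
  set s := sL m k l with hsd
  have hez := Pool.Agent.Helper30.T5b.lt_ez_sub hm s l'
  have hef : ef m k l' 0 = ez m s l' := by
    unfold ef
    rw [hs, Nat.sub_zero]
  rw [hef] at hup
  have hdist : SS m s ≤ 100 * (l - l') := by omega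
  have hS1 : 1000 ≤ SS m s := by exact_mod_cast a4
  have hBWn : ∀ x : ℝ, 0 ≤ x → 1000 * x ≤ Real.exp (1 / 1000 * (SS m s : ℝ)) →
      x ≤ Real.exp ((SS m s : ℝ) / 1000) := by
    intro x hx0 hx
    rw [show (SS m s : ℝ) / 1000 = 1 / 1000 * (SS m s : ℝ) by ring]
    linarith
  refine ⟨by omega, by omega, Pool.Agent.Helper25.T5b.SS_sL_le hm a1 a2, ?_⟩
  have hq1 : Real.exp (SS m s : ℝ) ≤ Q1 m k s := by
    rw [Q1_eq]
    have h3 := a6 1
    have h4 : (1 : ℝ) ≤ QF m k s 2 := by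
      exact_mod_cast Pool.Agent.Helper30.T5b.QF_pos m k s 2
    push_cast
    calc Real.exp (SS m s : ℝ) ≤ (QF m k s 1 : ℝ) := h3
      _ ≤ QF m k s 1 * QF m k s 2 := le_mul_of_one_le_right (Nat.cast_nonneg _) h4
  have hrat := Pool.Agent.Helper25.T5b.front_ratio hm a1 b1 hs a3 hdist
  have e1 : M0 m k l = Jn m k s (ez m (s - 1) l) := by
    rw [M0_eq]
    rfl
  have e2 : M0 m k l' = Jn m k s (ez m (s - 1) l') := by
    rw [M0_eq]
    show Jn m k (sL m k l') (ez m (sL m k l' - 1) l') = _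
    rw [hs]
  refine ⟨a4, ?_, hBWn _ (Nat.cast_nonneg _) a5, hBWn _ (Nat.cast_nonneg _) b5, ?_, a6 0, hq1,
    a7, ?_, ?_, ?_⟩
  · have h3 := h1 l l' (by omega) hll hN hs hv
    rw [← hsd] at h3
    have h4 : 0 < LB m k l l' := by
      unfold LB
      exact Finset.prod_pos (fun i _ => Nat.mul_pos (by norm_num) (pow_pos (pJ_prime k _ _).pos _))
    rw [← Real.exp_log (by exact_mod_cast h4 : (0 : ℝ) < LB m k l l')]
    exact Real.exp_le_exp.2 h3
  · rw [e1, e2]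
    refine hrat.trans (le_of_eq ?_)
    rw [show -((SS m s : ℝ) / 10) = -(1 / 10 * (SS m s : ℝ)) by ring]
  · rw [e1]
    exact Nat.Coprime.pow_right _
      (Pool.Agent.Helper44.T5b.coprime_Jn_pz (t := 0) (Nat.zero_le _) (Nat.zero_le _) 0)
  · rw [e1]
    exact Pool.Agent.Helper44.T5b.Jn_pos _ _ _ _
  · rw [e2]
    exact Pool.Agent.Helper44.T5b.Jn_pos _ _ _ _

/-! ## the labels -/

/-- the number of hits of a pattern -/
noncomputable def Mn (m k l : ℕ) : ℕ := 4000 * l / SS m (sL m k l) + C3 k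

theorem C3_le_Mn (m k l : ℕ) : C3 k ≤ Mn m k l := Nat.le_add_left _ _

theorem Mn_big {l : ℕ} (h : 1 ≤ SS m (sL m k l)) :
    4000 * (l : ℝ) ≤ Mn m k l * (SS m (sL m k l) : ℝ) := by
  have h1 : 4000 * l ≤ Mn m k l * SS m (sL m k l) := by
    have h2 := Nat.lt_div_mul_add (a := 4000 * l) (b := SS m (sL m k l)) h
    have h3 := C3_pos k
    unfold Mn
    nlinarith
  exact_mod_cast h1

theorem labH_small {l l' n : ℕ} {w : Key → ℕ} (hm : 0 < m) (hbb : bb 0 ≤ mL m k l)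
    (hbb' : bb 0 ≤ mL m k l') (hll : l' ≤ l) (hw : Rg m k l w) (hw' : Rg m k l' w)
    {z z' : Fin 3 → ℕ} (h : 0 < (LabH m k l l' w n z z').card) :
    n ∈ range (34 * NL m k l) ∧ z ∈ Fintype.piFinset (fun _ : Fin 3 => range (Bd m k l)) ∧
      z' ∈ Fintype.piFinset (fun _ : Fin 3 => range (Bd m k l')) := by
  rw [card_pos] at h
  obtain ⟨g, hg⟩ := h
  unfold LabH at hg
  rw [mem_image] at hg
  obtain ⟨q, hq, _⟩ := hg
  rw [mem_filter] at hq
  obtain ⟨hq, hz, hz'⟩ := hq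
  unfold Hts at hq
  rw [mem_filter, mem_product] at hq
  obtain ⟨⟨q1, q2⟩, hsum⟩ := hq
  have x1 : q.1.1.1 ∈ XJ m k l := by
    unfold Pm at q1
    rw [mem_product, mem_product] at q1
    exact q1.1.1
  have x2 : q.2.1.1 ∈ XJ m k l' := by
    unfold Pm at q2
    rw [mem_product, mem_product] at q2
    exact q2.1.1
  refine ⟨?_, ?_, ?_⟩
  · rw [mem_range]
    have h1 := hw _ (val_mem q1)
    have h2 := hw' _ (val_mem q2)
    have h3 := Pool.Agent.Helper30.T5b.NL_mono m k hll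
    omega
  · rw [Fintype.mem_piFinset]
    intro f
    rw [mem_range, ← hz f]
    exact Pool.Agent.Helper54.T5b.XJ_lt hm hbb x1 _
  · rw [Fintype.mem_piFinset]
    intro f
    rw [mem_range, ← hz' f]
    exact Pool.Agent.Helper54.T5b.XJ_lt hm hbb' x2 _

/-- the union bound in numbers -/
theorem union_num {l : ℕ} {S x y y' q : ℝ} {M : ℕ} (hl : 0 ≤ (l : ℝ)) (hS : S ≤ l)
    (hx0 : 0 ≤ x) (hx : x ≤ Real.exp (16 * l)) (hy0 : 0 ≤ y) (hy : y ≤ Real.exp (16 * l))
    (hy0' : 0 ≤ y') (hy' : y' ≤ Real.exp (16 * l)) (hM : 4000 * (l : ℝ) ≤ M * S)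
    (hq : q = Real.exp (43 * S) * Real.exp (-(S / 20)) ^ M) :
    x * (y ^ 3 * y' ^ 3) * q ≤ Real.exp (-(l : ℝ)) := by
  have e1 : Real.exp (-(S / 20)) ^ M = Real.exp (-(M * S / 20)) := by
    rw [← Real.exp_nat_mul]
    congr 1
    ring
  have h1 : q ≤ Real.exp (43 * l - 200 * l) := by
    rw [hq, e1, ← Real.exp_add]
    refine Real.exp_le_exp.2 ?_
    linarith
  have hq0 : 0 ≤ q := by
    rw [hq]
    positivity
  have h2 : y ^ 3 ≤ Real.exp (48 * l) := by
    calc y ^ 3 ≤ Real.exp (16 * l) ^ 3 := pow_le_pow_left₀ hy0 hy 3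
      _ = Real.exp (48 * l) := by
          rw [← Real.exp_nat_mul]
          congr 1
          push_cast
          ring
  have h3 : y' ^ 3 ≤ Real.exp (48 * l) := by
    calc y' ^ 3 ≤ Real.exp (16 * l) ^ 3 := pow_le_pow_left₀ hy0' hy' 3
      _ = Real.exp (48 * l) := by
          rw [← Real.exp_nat_mul]
          congr 1
          push_cast
          ring
  calc x * (y ^ 3 * y' ^ 3) * q
      ≤ Real.exp (16 * l) * (Real.exp (48 * l) * Real.exp (48 * l)) *
        Real.exp (43 * l - 200 * l) := by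
        refine mul_le_mul (mul_le_mul hx (mul_le_mul h2 h3 (by positivity) (by positivity))
          (by positivity) (by positivity)) h1 hq0 (by positivity)
    _ = Real.exp (16 * l + (48 * l + 48 * l) + (43 * l - 200 * l)) := by
        rw [← Real.exp_add, ← Real.exp_add, ← Real.exp_add]
    _ ≤ Real.exp (-(l : ℝ)) := Real.exp_le_exp.2 (by linarith)

/-- **the labels**, probability -/
theorem lab_prob (hL : LHyp) (hm : 0 < m) (hk : 0 < k) : ∃ l0 : ℕ, ∀ l l', l0 ≤ l' → l' ≤ l →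
    CaseUp m k l' l → ∀ K : Finset Key, keysOf m k l ⊆ K → keysOf m k l' ⊆ K →
    PrLe (Mk m k) K (fun w => ∃ (n : ℕ) (z z' : Fin 3 → ℕ),
      (Mn m k l + 1) ^ 16 < (LabH m k l l' w n z z').card) (Real.exp (-(l : ℝ))) := by
  obtain ⟨l1, h1⟩ := nb_of hm k
  obtain ⟨l2, h2⟩ := Pool.Agent.Helper25.T5b.exists_up_num hm k 1000
  obtain ⟨l3, h3⟩ := Pool.Agent.Helper25.T5b.exists_NL_exp hm k
  obtain ⟨l4, h4⟩ := Pool.Agent.Helper27.T5b.exists_AA_range hm k
  refine ⟨l1 + l2 + l3 + l4 + 100, fun l l' hl' hll hc K hK hK' => ?_⟩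
  have hRg : ∀ w, Rg m k l w := fun w a ha => (h4 l (by omega) w a ha).2.1
  have hRg' : ∀ w, Rg m k l' w := fun w a ha => (h4 l' (by omega) w a ha).2.1
  obtain ⟨a1, a2, a3, a4, _⟩ := h2 l (by omega)
  obtain ⟨b1, _⟩ := h2 l' (by omega)
  have hr : 0 < rL m k l := by
    have := Pool.Agent.Helper27.T5b.rL_bounds hm k l
    omega
  have hr' : 0 < rL m k l' := by
    have := Pool.Agent.Helper27.T5b.rL_bounds hm k l'
    omega
  have hN := hc.1
  have hs : sL m k l' = sL m k l := hc.2.1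
  by_cases hv : Vd m k l' l
  · refine PrLe_false (fun r _ hw => ?_) (Real.exp_pos _).le
    obtain ⟨n, z, z', hbig⟩ := hw
    have h5 := Pool.Agent.Helper25.T5b.void hm hs (w := ext K r)
      (fun a ha => (h4 l' (by omega) _ a ha).2.2) hv n z z'
    have h6 := h5.trans (prod_sq_le k _)
    have h7 : C3 k ≤ (Mn m k l + 1) ^ 16 := by
      refine le_trans ?_ (Nat.le_self_pow (by norm_num) _)
      have := C3_le_Mn m k l
      omega
    omega
  · obtain ⟨c1, c2, c3, hNb⟩ := h1 l l' (by omega) hll hc hv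
    have hev : ∀ i ∈ range (34 * NL m k l) ×ˢ
        ((Fintype.piFinset (fun _ : Fin 3 => range (Bd m k l))) ×ˢ
          (Fintype.piFinset (fun _ : Fin 3 => range (Bd m k l')))),
        PrLe (Mk m k) K (Four m k (sL m k l) l l' i.1 i.2.1 i.2.2 (Mn m k l))
          (Real.exp (43 * (SS m (sL m k l) : ℝ)) *
            Real.exp (-((SS m (sL m k l) : ℝ) / 20)) ^ (Mn m k l)) := fun i _ =>
      hNb.four hm rfl hs c1 hr hr' a1 b1 i.2.1 i.2.2
        (fun w => hL.card hm hll a1 b1 hs w _ _ _) _ hK hK'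
    have hall := PrLe_exists _ hev
    refine PrLe_mono (fun r _ hw => ?_) ?_ hall
    · obtain ⟨n, z, z', hbig⟩ := hw
      obtain ⟨d1, d2, d3⟩ := labH_small hm a1 b1 hll (hRg _) (hRg' _)
        (lt_of_le_of_lt (Nat.zero_le _) hbig)
      refine ⟨(n, (z, z')), ?_, ?_⟩
      · rw [mem_product, mem_product]
        exact ⟨d1, d2, d3⟩
      · exact four_of_large hm rfl hs hr hr' (hRg _) (hRg' _) z z'
          (hL.sub hm hll a1 b1 hs _ _ _ _) (constLe_of hL hm hll a1 b1 hN hs)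
          (Nat.lt_succ_of_le (C3_le_Mn m k l)) hbig.le
    · rw [sum_const, card_product, card_product, Fintype.card_piFinset, Fintype.card_piFinset,
        card_range, card_range, card_range, prod_const, prod_const, card_univ, Fintype.card_fin,
        nsmul_eq_mul]
      push_cast
      have hl100 : (100 : ℝ) ≤ l := by exact_mod_cast (show 100 ≤ l by omega)
      have hl100' : (100 : ℝ) ≤ l' := by exact_mod_cast (show 100 ≤ l' by omega)
      have hll' : (l' : ℝ) ≤ l := by exact_mod_cast hll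
      have e36 : ∀ x : ℝ, 100 ≤ x → 36 * Real.exp (15 * x) ≤ Real.exp (16 * x) := by
        intro x hx
        have h5 : Real.exp (16 * x) = Real.exp x * Real.exp (15 * x) := by
          rw [← Real.exp_add]
          congr 1
          ring
        rw [h5]
        refine mul_le_mul_of_nonneg_right ?_ (Real.exp_pos _).le
        have := Real.add_one_le_exp x
        linarith
      have one_le : ∀ x : ℝ, 100 ≤ x → 1 ≤ Real.exp (15 * x) := by
        intro x hx
        rw [← Real.exp_zero]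
        exact Real.exp_le_exp.2 (by linarith)
      have n1 := h3 l (by omega)
      have n2 := h3 l' (by omega)
      have n3 : Real.exp (16 * (l' : ℝ)) ≤ Real.exp (16 * (l : ℝ)) :=
        Real.exp_le_exp.2 (by linarith)
      refine union_num (S := (SS m (sL m k l) : ℝ)) (by linarith) (by exact_mod_cast c3)
        (by positivity) ?_ (by positivity) ?_ (by positivity) ?_ (Mn_big c2) rfl
      · have := e36 l hl100
        have := one_le l hl100
        linarith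
      · unfold Bd
        push_cast
        have := e36 l hl100
        have := one_le l hl100
        linarith
      · unfold Bd
        push_cast
        have := e36 l' hl100'
        have := one_le l' hl100'
        linarith

/-- the bound for the number of labels as a power -/
theorem Mn_pow (hm : 0 < m) (k : ℕ) : ∃ (C : ℝ) (l0 : ℕ), 0 ≤ C ∧ ∀ l, l0 ≤ l →
    (((Mn m k l + 1) ^ 16 : ℕ) : ℝ) ≤ C * (l : ℝ) ^ ((32 : ℝ) / (m : ℝ)) := by
  obtain ⟨C, l0, hC, h⟩ := Pool.Agent.Helper75.T5b.exists_le_SS_sL hm k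
  obtain ⟨l2, h2⟩ := Pool.Agent.Helper25.T5b.exists_up_num hm k 1000
  refine ⟨(4000 * C + C3 k + 1) ^ 16, l0 + l2 + 1, by positivity, fun l hl => ?_⟩
  have h1 := h l (by omega)
  obtain ⟨_, _, _, a4, _⟩ := h2 l (by omega)
  push_cast at a4
  have hS : (0 : ℝ) < SS m (sL m k l) := by linarith
  have hl1 : (1 : ℝ) ≤ l := by exact_mod_cast (show 1 ≤ l by omega)
  have hp1 : (1 : ℝ) ≤ (l : ℝ) ^ ((2 : ℝ) / (m : ℝ)) := Real.one_le_rpow hl1 (by positivity)
  have h3 : ((Mn m k l + 1 : ℕ) : ℝ) ≤ (4000 * C + C3 k + 1) * (l : ℝ) ^ ((2 : ℝ) / (m : ℝ)) := by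
    unfold Mn
    push_cast
    have h4 : ((4000 * l / SS m (sL m k l) : ℕ) : ℝ) ≤ 4000 * C * (l : ℝ) ^ ((2 : ℝ) / (m : ℝ)) := by
      refine (Nat.cast_div_le (α := ℝ)).trans ?_
      rw [div_le_iff₀ hS]
      push_cast
      nlinarith
    have h5 : (0 : ℝ) ≤ C3 k + 1 := by positivity
    nlinarith
  push_cast at h3 ⊢
  calc ((Mn m k l : ℝ) + 1) ^ 16
      ≤ ((4000 * C + C3 k + 1) * (l : ℝ) ^ ((2 : ℝ) / (m : ℝ))) ^ 16 :=
        pow_le_pow_left₀ (by positivity) h3 16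
    _ = (4000 * C + C3 k + 1) ^ 16 * (l : ℝ) ^ ((32 : ℝ) / (m : ℝ)) := by
        rw [mul_pow, ← Real.rpow_natCast ((l : ℝ) ^ ((2 : ℝ) / (m : ℝ))),
          ← Real.rpow_mul (by linarith)]
        congr 2
        push_cast
        ring

/-! ## the hits with given main vectors -/

/-- hits ≤ labels × leaf -/
theorem cst_le {l l' n : ℕ} {w : Key → ℕ} {z z' : Fin 3 → ℕ} {R : ℕ}
    (hR : ∀ x x' : JF → ℕ, ((Hts m k l l' w n).filter
      (fun q => q.1.1.1 = x ∧ q.2.1.1 = x')).card ≤ R) :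
    ((Hts m k l l' w n).filter
      (fun q => (∀ f, q.1.1.1 (Sum.inl f) = z f) ∧ ∀ f, q.2.1.1 (Sum.inl f) = z' f)).card ≤
      R * (LabH m k l l' w n z z').card := by
  classical
  unfold LabH
  refine card_le_mul_card_image _ R ?_
  intro g _
  refine (card_le_card ?_).trans (hR g.1 g.2)
  intro q hq
  rw [mem_filter, mem_filter] at hq
  obtain ⟨⟨h1, _⟩, h2⟩ := hq
  rw [mem_filter]
  refine ⟨h1, ?_, ?_⟩
  · rw [← h2]
  · rw [← h2]

/-- **line 5: the hits with given main vectors above the joint front** -/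
theorem blk_up_of (hL : LHyp) : Blk CaseUp CstC := by
  obtain ⟨E, m0, hleaf⟩ := Pool.Agent.Helper83.T5b.blk_leaf
  refine ⟨32 + E, m0 + 1, fun m hm => ?_⟩
  have hm0 : 0 < m := by omega
  obtain ⟨K0, C1, c0, m', e1, e2, e3, hA⟩ := hleaf m (by omega)
  obtain ⟨l1, hB⟩ := lab_prob (k := m ^ 2) hL hm0 (by positivity)
  obtain ⟨C, l2, hC0, hC⟩ := Mn_pow hm0 (m ^ 2)
  refine ⟨K0 + l1 + l2 + 1, C * C1, min c0 1, m' + 1, by positivity, lt_min e2 one_pos,
    by positivity, ?_⟩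
  intro l l' hl' hll hp K hK hK'
  have hl1 : (1 : ℝ) ≤ (l : ℝ) := by exact_mod_cast (show 1 ≤ l by omega)
  have hl0 : (0 : ℝ) < (l : ℝ) := by linarith
  have hsum : (l : ℝ) ^ (((32 + E : ℕ) : ℝ) / (m : ℝ)) =
      (l : ℝ) ^ ((32 : ℝ) / (m : ℝ)) * (l : ℝ) ^ ((E : ℝ) / (m : ℝ)) := by
    rw [← Real.rpow_add hl0]
    congr 1
    push_cast
    ring
  have hA' := hA l l' (by omega) hll hp.1 K hK hK'
  have hB' := hB l l' (by omega) hll hp K hK hK'
  refine PrLe_mono (fun r _ hw => ?_) ?_ (PrLe_or hA' hB')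
  · generalize ext K r = w at hw ⊢
    by_contra hcon
    rw [not_or] at hcon
    obtain ⟨hn1, hn2⟩ := hcon
    push Not at hn1 hn2
    obtain ⟨c, ⟨n, z, z', rfl⟩, hlt⟩ := hw
    set R := ⌊C1 * (l : ℝ) ^ ((E : ℝ) / (m : ℝ))⌋₊ with hR
    have hR' : (R : ℝ) ≤ C1 * (l : ℝ) ^ ((E : ℝ) / (m : ℝ)) := Nat.floor_le (by positivity)
    have h5 := cst_le (m := m) (k := m ^ 2) (l := l) (l' := l') (n := n) (w := w) (z := z)
      (z' := z') (R := R) (fun x x' => Nat.le_floor (hn1 _ ⟨n, x, x', rfl⟩))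
    have h6 := hn2 n z z'
    have h7 := hC l (by omega)
    have h8 : ((LabH m (m ^ 2) l l' w n z z').card : ℝ) ≤
        C * (l : ℝ) ^ ((32 : ℝ) / (m : ℝ)) := by
      refine le_trans ?_ h7
      exact_mod_cast h6
    have h9 : ((((Hts m (m ^ 2) l l' w n).filter
      (fun q => (∀ f, q.1.1.1 (Sum.inl f) = z f) ∧
        ∀ f, q.2.1.1 (Sum.inl f) = z' f)).card : ℕ) : ℝ) ≤
        (R : ℝ) * ((LabH m (m ^ 2) l l' w n z z').card : ℝ) := by exact_mod_cast h5
    have h10 : (R : ℝ) * ((LabH m (m ^ 2) l l' w n z z').card : ℝ) ≤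
        (C1 * (l : ℝ) ^ ((E : ℝ) / (m : ℝ))) * (C * (l : ℝ) ^ ((32 : ℝ) / (m : ℝ))) :=
      mul_le_mul hR' h8 (Nat.cast_nonneg _) (by positivity)
    rw [hsum] at hlt
    have h11 := lt_of_lt_of_le hlt (h9.trans h10)
    exact absurd h11 (not_lt.2 (le_of_eq (by ring)))
  · have f1 : Real.exp (-((l : ℝ) ^ c0)) ≤ Real.exp (-((l : ℝ) ^ min c0 1)) :=
      Real.exp_le_exp.2 (neg_le_neg (Real.rpow_le_rpow_of_exponent_le hl1 (min_le_left _ _)))
    have f2 : Real.exp (-(l : ℝ)) ≤ Real.exp (-((l : ℝ) ^ min c0 1)) := by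
      refine Real.exp_le_exp.2 (neg_le_neg ?_)
      calc (l : ℝ) ^ min c0 1 ≤ (l : ℝ) ^ (1 : ℝ) :=
            Real.rpow_le_rpow_of_exponent_le hl1 (min_le_right _ _)
        _ = l := Real.rpow_one _
    have f3 := mul_le_mul_of_nonneg_left f1 e3
    linarith

end Pool.Agent.Helper87.OUT2
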